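import Mathlib

namespace Pool.Agent.Lib.MP_be4961_gt

/-- the spiral polynomial -/
noncomputable def pp (t : ℝ) : ℝ := (5242880)*t^0 + (-315621376)*t^1 + (7761690624)*t^2 + (-99523100672)*t^3 + (755396485120)*t^4 + (-3651139977216)*t^5 + (11733171095296)*t^6 + (-25632872278016)*t^7 + (38229767338176)*t^8 + (-38320019085120)*t^9 + (24690419107200)*t^10 + (-9238496873760)*t^11 + (1525853493450)*t^12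
theorem pp_pos_0 (t : ℝ) (h0 : (0:ℝ) ≤ t) (h1 : t ≤ (1/16:ℝ)) : 1 ≤ pp t := by
  have e : pp t - 1 = (1475739244421787418624:ℝ) * (t-(0:ℝ))^0 * ((1/16:ℝ)-t)^12
      + (12156400966874873987072:ℝ) * (t-(0:ℝ))^1 * ((1/16:ℝ)-t)^11
      + (44855689596073601400832:ℝ) * (t-(0:ℝ))^2 * ((1/16:ℝ)-t)^10
      + (97778301154087086850048:ℝ) * (t-(0:ℝ))^3 * ((1/16:ℝ)-t)^9
      + (140058315308144904896512:ℝ) * (t-(0:ℝ))^4 * ((1/16:ℝ)-t)^8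
      + (139323499535499693916160:ℝ) * (t-(0:ℝ))^5 * ((1/16:ℝ)-t)^7
      + (100185184684590466334720:ℝ) * (t-(0:ℝ))^6 * ((1/16:ℝ)-t)^6
      + (54652464784920570494976:ℝ) * (t-(0:ℝ))^7 * ((1/16:ℝ)-t)^5
      + (24219994573564368912384:ℝ) * (t-(0:ℝ))^8 * ((1/16:ℝ)-t)^4
      + (9163969515644208807936:ℝ) * (t-(0:ℝ))^9 * ((1/16:ℝ)-t)^3
      + (2795559394181812682752:ℝ) * (t-(0:ℝ))^10 * ((1/16:ℝ)-t)^2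
      + (570644158863919427072:ℝ) * (t-(0:ℝ))^11 * ((1/16:ℝ)-t)^1
      + (54797316439265330890:ℝ) * (t-(0:ℝ))^12 * ((1/16:ℝ)-t)^0 := by
    rw [pp]; ring
  have u : 0 ≤ t-(0:ℝ) := by linarith
  have v : 0 ≤ (1/16:ℝ)-t := by linarith
  have : 0 ≤ pp t - 1 := by rw [e]; positivity
  linarith
theorem pp_pos_1 (t : ℝ) (h0 : (1/16:ℝ) ≤ t) (h1 : t ≤ (1/8:ℝ)) : 1 ≤ pp t := by
  have e : pp t - 1 = (54797316439265330890:ℝ) * (t-(1/16:ℝ))^0 * ((1/8:ℝ)-t)^12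
      + (744491435678448514288:ℝ) * (t-(1/16:ℝ))^1 * ((1/8:ℝ)-t)^11
      + (4707879439141632642128:ℝ) * (t-(1/16:ℝ))^2 * ((1/8:ℝ)-t)^10
      + (17648780351036753257664:ℝ) * (t-(1/16:ℝ))^3 * ((1/8:ℝ)-t)^9
      + (43213690743302670178656:ℝ) * (t-(1/16:ℝ))^4 * ((1/8:ℝ)-t)^8
      + (72774885589129410338304:ℝ) * (t-(1/16:ℝ))^5 * ((1/8:ℝ)-t)^7
      + (86672980181103890384384:ℝ) * (t-(1/16:ℝ))^6 * ((1/8:ℝ)-t)^6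
      + (73803916905100334823424:ℝ) * (t-(1/16:ℝ))^7 * ((1/8:ℝ)-t)^5
      + (44738023140768062543360:ℝ) * (t-(1/16:ℝ))^8 * ((1/8:ℝ)-t)^4
      + (18880417533655150571520:ℝ) * (t-(1/16:ℝ))^9 * ((1/8:ℝ)-t)^3
      + (5278765398795898081280:ℝ) * (t-(1/16:ℝ))^10 * ((1/8:ℝ)-t)^2
      + (879927250723841228800:ℝ) * (t-(1/16:ℝ))^11 * ((1/8:ℝ)-t)^1
      + (66282847298373066752:ℝ) * (t-(1/16:ℝ))^12 * ((1/8:ℝ)-t)^0 := by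
    rw [pp]; ring
  have u : 0 ≤ t-(1/16:ℝ) := by linarith
  have v : 0 ≤ (1/8:ℝ)-t := by linarith
  have : 0 ≤ pp t - 1 := by rw [e]; positivity
  linarith
theorem pp_pos_2 (t : ℝ) (h0 : (1/8:ℝ) ≤ t) (h1 : t ≤ (1/4:ℝ)) : 1 ≤ pp t := by
  have e : pp t - 1 = (16182335766204362:ℝ) * (t-(1/8:ℝ))^0 * ((1/4:ℝ)-t)^12
      + (152912109690856432:ℝ) * (t-(1/8:ℝ))^1 * ((1/4:ℝ)-t)^11
      + (588836509434490448:ℝ) * (t-(1/8:ℝ))^2 * ((1/4:ℝ)-t)^10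
      + (1220859941894473920:ℝ) * (t-(1/8:ℝ))^3 * ((1/4:ℝ)-t)^9
      + (1635031130608918880:ℝ) * (t-(1/8:ℝ))^4 * ((1/4:ℝ)-t)^8
      + (1966235891491454464:ℝ) * (t-(1/8:ℝ))^5 * ((1/4:ℝ)-t)^7
      + (2804010655100372480:ℝ) * (t-(1/8:ℝ))^6 * ((1/4:ℝ)-t)^6
      + (3697218200344983552:ℝ) * (t-(1/8:ℝ))^7 * ((1/4:ℝ)-t)^5
      + (3455113293675664896:ℝ) * (t-(1/8:ℝ))^8 * ((1/4:ℝ)-t)^4
      + (2102185935336648704:ℝ) * (t-(1/8:ℝ))^9 * ((1/4:ℝ)-t)^3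
      + (794297046676164608:ℝ) * (t-(1/8:ℝ))^10 * ((1/4:ℝ)-t)^2
      + (169785037510131712:ℝ) * (t-(1/8:ℝ))^11 * ((1/4:ℝ)-t)^1
      + (15727670860226560:ℝ) * (t-(1/8:ℝ))^12 * ((1/4:ℝ)-t)^0 := by
    rw [pp]; ring
  have u : 0 ≤ t-(1/8:ℝ) := by linarith
  have v : 0 ≤ (1/4:ℝ)-t := by linarith
  have : 0 ≤ pp t - 1 := by rw [e]; positivity
  linarith
theorem pp_pos_3 (t : ℝ) (h0 : (1/4:ℝ) ≤ t) (h1 : t ≤ (3/8:ℝ)) : 1 ≤ pp t := by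
  have e : pp t - 1 = (15727670860226560:ℝ) * (t-(1/4:ℝ))^0 * ((3/8:ℝ)-t)^12
      + (207679063135305728:ℝ) * (t-(1/4:ℝ))^1 * ((3/8:ℝ)-t)^11
      + (1211131328553078784:ℝ) * (t-(1/4:ℝ))^2 * ((3/8:ℝ)-t)^10
      + (4111747459956412416:ℝ) * (t-(1/4:ℝ))^3 * ((3/8:ℝ)-t)^9
      + (9036138558946113024:ℝ) * (t-(1/4:ℝ))^4 * ((3/8:ℝ)-t)^8
      + (13532076847192762368:ℝ) * (t-(1/4:ℝ))^5 * ((3/8:ℝ)-t)^7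
      + (14154322468200846848:ℝ) * (t-(1/4:ℝ))^6 * ((3/8:ℝ)-t)^6
      + (10415229492093168128:ℝ) * (t-(1/4:ℝ))^7 * ((3/8:ℝ)-t)^5
      + (5348187372096937312:ℝ) * (t-(1/4:ℝ))^8 * ((3/8:ℝ)-t)^4
      + (1868398177000149568:ℝ) * (t-(1/4:ℝ))^9 * ((3/8:ℝ)-t)^3
      + (421940342799162064:ℝ) * (t-(1/4:ℝ))^10 * ((3/8:ℝ)-t)^2
      + (55604747210717264:ℝ) * (t-(1/4:ℝ))^11 * ((3/8:ℝ)-t)^1
      + (3289570985644330:ℝ) * (t-(1/4:ℝ))^12 * ((3/8:ℝ)-t)^0 := by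
    rw [pp]; ring
  have u : 0 ≤ t-(1/4:ℝ) := by linarith
  have v : 0 ≤ (3/8:ℝ)-t := by linarith
  have : 0 ≤ pp t - 1 := by rw [e]; positivity
  linarith
theorem pp_pos_4 (t : ℝ) (h0 : (3/8:ℝ) ≤ t) (h1 : t ≤ (1/2:ℝ)) : 1 ≤ pp t := by
  have e : pp t - 1 = (3289570985644330:ℝ) * (t-(3/8:ℝ))^0 * ((1/2:ℝ)-t)^12
      + (23344956444746656:ℝ) * (t-(3/8:ℝ))^1 * ((1/2:ℝ)-t)^11
      + (67082644373485376:ℝ) * (t-(3/8:ℝ))^2 * ((1/2:ℝ)-t)^10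
      + (127009227359314432:ℝ) * (t-(3/8:ℝ))^3 * ((1/2:ℝ)-t)^9
      + (321417778099721728:ℝ) * (t-(3/8:ℝ))^4 * ((1/2:ℝ)-t)^8
      + (946981848214618112:ℝ) * (t-(3/8:ℝ))^5 * ((1/2:ℝ)-t)^7
      + (1965559158656565248:ℝ) * (t-(3/8:ℝ))^6 * ((1/2:ℝ)-t)^6
      + (2627040349152083968:ℝ) * (t-(3/8:ℝ))^7 * ((1/2:ℝ)-t)^5
      + (2286987817839362048:ℝ) * (t-(3/8:ℝ))^8 * ((1/2:ℝ)-t)^4
      + (1296956746180329472:ℝ) * (t-(3/8:ℝ))^9 * ((1/2:ℝ)-t)^3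
      + (463402157052264448:ℝ) * (t-(3/8:ℝ))^10 * ((1/2:ℝ)-t)^2
      + (94912591582724096:ℝ) * (t-(3/8:ℝ))^11 * ((1/2:ℝ)-t)^1
      + (8508117780267008:ℝ) * (t-(3/8:ℝ))^12 * ((1/2:ℝ)-t)^0 := by
    rw [pp]; ring
  have u : 0 ≤ t-(3/8:ℝ) := by linarith
  have v : 0 ≤ (1/2:ℝ)-t := by linarith
  have : 0 ≤ pp t - 1 := by rw [e]; positivity
  linarith
theorem pp_pos_5 (t : ℝ) (h0 : (1/2:ℝ) ≤ t) (h1 : t ≤ (5/8:ℝ)) : 1 ≤ pp t := by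
  have e : pp t - 1 = (8508117780267008:ℝ) * (t-(1/2:ℝ))^0 * ((5/8:ℝ)-t)^12
      + (109282235143684096:ℝ) * (t-(1/2:ℝ))^1 * ((5/8:ℝ)-t)^11
      + (621468236222824448:ℝ) * (t-(1/2:ℝ))^2 * ((5/8:ℝ)-t)^10
      + (2064603539935592448:ℝ) * (t-(1/2:ℝ))^3 * ((5/8:ℝ)-t)^9
      + (4453826586519928832:ℝ) * (t-(1/2:ℝ))^4 * ((5/8:ℝ)-t)^8
      + (6560317522787958784:ℝ) * (t-(1/2:ℝ))^5 * ((5/8:ℝ)-t)^7
      + (6754243225839828992:ℝ) * (t-(1/2:ℝ))^6 * ((5/8:ℝ)-t)^6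
      + (4892515463201734656:ℝ) * (t-(1/2:ℝ))^7 * ((5/8:ℝ)-t)^5
      + (2476413877364626944:ℝ) * (t-(1/2:ℝ))^8 * ((5/8:ℝ)-t)^4
      + (858281669214588416:ℝ) * (t-(1/2:ℝ))^9 * ((5/8:ℝ)-t)^3
      + (195975048136653632:ℝ) * (t-(1/2:ℝ))^10 * ((5/8:ℝ)-t)^2
      + (27275332345356640:ℝ) * (t-(1/2:ℝ))^11 * ((5/8:ℝ)-t)^1
      + (1842196618278634:ℝ) * (t-(1/2:ℝ))^12 * ((5/8:ℝ)-t)^0 := by
    rw [pp]; ring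
  have u : 0 ≤ t-(1/2:ℝ) := by linarith
  have v : 0 ≤ (5/8:ℝ)-t := by linarith
  have : 0 ≤ pp t - 1 := by rw [e]; positivity
  linarith
theorem pp_pos_6 (t : ℝ) (h0 : (5/8:ℝ) ≤ t) (h1 : t ≤ (3/4:ℝ)) : 1 ≤ pp t := by
  have e : pp t - 1 = (1842196618278634:ℝ) * (t-(5/8:ℝ))^0 * ((3/4:ℝ)-t)^12
      + (16937386493330576:ℝ) * (t-(5/8:ℝ))^1 * ((3/4:ℝ)-t)^11
      + (82257643764366928:ℝ) * (t-(5/8:ℝ))^2 * ((3/4:ℝ)-t)^10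
      + (302912225710419264:ℝ) * (t-(5/8:ℝ))^3 * ((3/4:ℝ)-t)^9
      + (889611016995705696:ℝ) * (t-(5/8:ℝ))^4 * ((3/4:ℝ)-t)^8
      + (1948468729089692160:ℝ) * (t-(5/8:ℝ))^5 * ((3/4:ℝ)-t)^7
      + (3029886857579283968:ℝ) * (t-(5/8:ℝ))^6 * ((3/4:ℝ)-t)^6
      + (3277159962171459584:ℝ) * (t-(5/8:ℝ))^7 * ((3/4:ℝ)-t)^5
      + (2430531744734901760:ℝ) * (t-(5/8:ℝ))^8 * ((3/4:ℝ)-t)^4
      + (1206707715931525120:ℝ) * (t-(5/8:ℝ))^9 * ((3/4:ℝ)-t)^3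
      + (382214615382249472:ℝ) * (t-(5/8:ℝ))^10 * ((3/4:ℝ)-t)^2
      + (69740586342957056:ℝ) * (t-(5/8:ℝ))^11 * ((3/4:ℝ)-t)^1
      + (5584056518090752:ℝ) * (t-(5/8:ℝ))^12 * ((3/4:ℝ)-t)^0 := by
    rw [pp]; ring
  have u : 0 ≤ t-(5/8:ℝ) := by linarith
  have v : 0 ≤ (3/4:ℝ)-t := by linarith
  have : 0 ≤ pp t - 1 := by rw [e]; positivity
  linarith
theorem pp_pos_7 (t : ℝ) (h0 : (3/4:ℝ) ≤ t) (h1 : t ≤ (7/8:ℝ)) : 1 ≤ pp t := by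
  have e : pp t - 1 = (5584056518090752:ℝ) * (t-(3/4:ℝ))^0 * ((7/8:ℝ)-t)^12
      + (64276770091220992:ℝ) * (t-(3/4:ℝ))^1 * ((7/8:ℝ)-t)^11
      + (322112636613152768:ℝ) * (t-(3/4:ℝ))^2 * ((7/8:ℝ)-t)^10
      + (922595068102635520:ℝ) * (t-(3/4:ℝ))^3 * ((7/8:ℝ)-t)^9
      + (1676577277347796480:ℝ) * (t-(3/4:ℝ))^4 * ((7/8:ℝ)-t)^8
      + (2063500130085607424:ℝ) * (t-(3/4:ℝ))^5 * ((7/8:ℝ)-t)^7
      + (1876663135398786560:ℝ) * (t-(3/4:ℝ))^6 * ((7/8:ℝ)-t)^6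
      + (1462518094614042112:ℝ) * (t-(3/4:ℝ))^7 * ((7/8:ℝ)-t)^5
      + (1077094823414777696:ℝ) * (t-(3/4:ℝ))^8 * ((7/8:ℝ)-t)^4
      + (662002202988666304:ℝ) * (t-(3/4:ℝ))^9 * ((7/8:ℝ)-t)^3
      + (273366666995531728:ℝ) * (t-(3/4:ℝ))^10 * ((7/8:ℝ)-t)^2
      + (62382580087808432:ℝ) * (t-(3/4:ℝ))^11 * ((7/8:ℝ)-t)^1
      + (5877775535338250:ℝ) * (t-(3/4:ℝ))^12 * ((7/8:ℝ)-t)^0 := by
    rw [pp]; ring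
  have u : 0 ≤ t-(3/4:ℝ) := by linarith
  have v : 0 ≤ (7/8:ℝ)-t := by linarith
  have : 0 ≤ pp t - 1 := by rw [e]; positivity
  linarith
theorem pp_pos_8 (t : ℝ) (h0 : (7/8:ℝ) ≤ t) (h1 : t ≤ (1:ℝ)) : 1 ≤ pp t := by
  have e : pp t - 1 = (5877775535338250:ℝ) * (t-(7/8:ℝ))^0 * ((1:ℝ)-t)^12
      + (78684032760309568:ℝ) * (t-(7/8:ℝ))^1 * ((1:ℝ)-t)^11
      + (452682646393044224:ℝ) * (t-(7/8:ℝ))^2 * ((1:ℝ)-t)^10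
      + (1426048459799433216:ℝ) * (t-(7/8:ℝ))^3 * ((1:ℝ)-t)^9
      + (2574031752786305024:ℝ) * (t-(7/8:ℝ))^4 * ((1:ℝ)-t)^8
      + (2461002469348999168:ℝ) * (t-(7/8:ℝ))^5 * ((1:ℝ)-t)^7
      + (1006620769463042048:ℝ) * (t-(7/8:ℝ))^6 * ((1:ℝ)-t)^6
      + (1313024497888002048:ℝ) * (t-(7/8:ℝ))^7 * ((1:ℝ)-t)^5
      + (5129154731716902912:ℝ) * (t-(7/8:ℝ))^8 * ((1:ℝ)-t)^4
      + (8380525362248941568:ℝ) * (t-(7/8:ℝ))^9 * ((1:ℝ)-t)^3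
      + (6913281876215988224:ℝ) * (t-(7/8:ℝ))^10 * ((1:ℝ)-t)^2
      + (2938898992253108224:ℝ) * (t-(7/8:ℝ))^11 * ((1:ℝ)-t)^1
      + (516535788041666560:ℝ) * (t-(7/8:ℝ))^12 * ((1:ℝ)-t)^0 := by
    rw [pp]; ring
  have u : 0 ≤ t-(7/8:ℝ) := by linarith
  have v : 0 ≤ (1:ℝ)-t := by linarith
  have : 0 ≤ pp t - 1 := by rw [e]; positivity
  linarith
theorem pp_pos (t : ℝ) (h0 : 0 ≤ t) (h1 : t ≤ 1) : 1 ≤ pp t := by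
  rcases le_total t (1/16:ℝ) with h | h2
  · exact pp_pos_0 t (by linarith) h
  rcases le_total t (1/8:ℝ) with h | h3
  · exact pp_pos_1 t (by linarith) h
  rcases le_total t (1/4:ℝ) with h | h4
  · exact pp_pos_2 t (by linarith) h
  rcases le_total t (3/8:ℝ) with h | h5
  · exact pp_pos_3 t (by linarith) h
  rcases le_total t (1/2:ℝ) with h | h6
  · exact pp_pos_4 t (by linarith) h
  rcases le_total t (5/8:ℝ) with h | h7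
  · exact pp_pos_5 t (by linarith) h
  rcases le_total t (3/4:ℝ) with h | h8
  · exact pp_pos_6 t (by linarith) h
  rcases le_total t (7/8:ℝ) with h | h9
  · exact pp_pos_7 t (by linarith) h
  exact pp_pos_8 t (by linarith) (by linarith)

end Pool.Agent.Lib.MP_be4961_gt
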