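import Mathlib

open MeasureTheory Set Module Metric

namespace Pool.Agent.Lib.MP_be4961_gt

section polar

variable {E : Type*} [NormedAddCommGroup E] [NormedSpace ℝ E] [FiniteDimensional ℝ E]
  [MeasurableSpace E] [BorelSpace E] (μ : Measure E) [μ.IsAddHaarMeasure]
  {F : Type*} [NormedAddCommGroup F]

theorem polar_integrable {f : E → F} (hf : Integrable f μ) :
    Integrable (fun p : sphere (0 : E) 1 × Ioi (0 : ℝ) => f ((p.2 : ℝ) • (p.1 : E)))
      (μ.toSphere.prod (Measure.volumeIoiPow (finrank ℝ E - 1))) := by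
  rw [← μ.measurePreserving_homeomorphUnitSphereProd.integrable_comp_emb
        (Homeomorph.measurableEmbedding _)]
  have h1 : Integrable (fun x : ({(0)}ᶜ : Set E) => f x.1) (μ.comap (↑)) := by
    have := (integrableOn_iff_comap_subtypeVal (f := f) (μ := μ)
      (measurableSet_singleton (0:E)).compl).1 hf.integrableOn
    exact this
  refine h1.congr (Filter.Eventually.of_forall fun x => ?_)
  have hx : (x : E) ≠ 0 := fun h => x.2 h
  have : ‖(x : E)‖ ≠ 0 := by simpa using hx
  simp [smul_smul, this]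

variable [Nontrivial E] [NormedSpace ℝ F]

theorem polar_aux (f : E → F) :
    ∫ x, f x ∂μ = ∫ p : sphere (0 : E) 1 × Ioi (0 : ℝ), f ((p.2 : ℝ) • (p.1 : E))
      ∂(μ.toSphere.prod (Measure.volumeIoiPow (finrank ℝ E - 1))) := by
  calc
    ∫ x, f x ∂μ = ∫ x : ({(0)}ᶜ : Set E), f x.1 ∂(μ.comap (↑)) := by
      rw [integral_subtype_comap (measurableSet_singleton _).compl fun x ↦ f x,
        restrict_compl_singleton]
    _ = _ := by
      rw [← μ.measurePreserving_homeomorphUnitSphereProd.integral_comp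
        (Homeomorph.measurableEmbedding _)
        (fun p : sphere (0 : E) 1 × Ioi (0 : ℝ) => f ((p.2 : ℝ) • (p.1 : E)))]
      refine integral_congr_ae (Filter.Eventually.of_forall fun x => ?_)
      have hx : (x : E) ≠ 0 := fun h => x.2 h
      have : ‖(x : E)‖ ≠ 0 := by simpa using hx
      simp [smul_smul, this]

omit [Nontrivial E] in
theorem integral_volumeIoiPow (n : ℕ) (g : ℝ → F) :
    ∫ r : Ioi (0 : ℝ), g r ∂(Measure.volumeIoiPow n) = ∫ r in Ioi (0 : ℝ), r ^ n • g r := by
  simp only [Measure.volumeIoiPow, ENNReal.ofReal]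
  rw [integral_withDensity_eq_integral_smul,
    integral_subtype_comap measurableSet_Ioi fun a ↦ Real.toNNReal (a ^ n) • g a,
    setIntegral_congr_fun measurableSet_Ioi fun x hx ↦ ?_]
  · rw [NNReal.smul_def, Real.coe_toNNReal _ (pow_nonneg hx.out.le _)]
  · exact (measurable_subtype_coe.pow_const _).real_toNNReal

/-- Integration in polar coordinates. -/
theorem integral_polar {f : E → F} (hf : Integrable f μ) :
    ∫ x, f x ∂μ = ∫ u : sphere (0 : E) 1,
      (∫ r in Ioi (0 : ℝ), r ^ (finrank ℝ E - 1) • f (r • (u : E))) ∂μ.toSphere := by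
  rw [polar_aux μ f, integral_prod _ (polar_integrable μ hf)]
  refine integral_congr_ae (Filter.Eventually.of_forall fun u => ?_)
  exact integral_volumeIoiPow _ (fun r => f (r • (u : E)))

/-- First moments of a star body with radial function `ρ`. -/
theorem star_moment {ρ : E → ℝ} {K : Set E} (hK : K = {x | ‖x‖ ≤ ρ (‖x‖⁻¹ • x)})
    (hKm : MeasurableSet K) (hρ0 : ∀ u, ‖u‖ = 1 → 0 ≤ ρ u) {R : ℝ} (hR : 0 ≤ R)
    (hρR : ∀ u, ‖u‖ = 1 → ρ u ≤ R) (L : E →L[ℝ] ℝ) :
    ∫ x in K, L x ∂μ = ∫ u : sphere (0 : E) 1,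
      (ρ u) ^ (finrank ℝ E + 1) / (finrank ℝ E + 1 : ℝ) * L u ∂μ.toSphere := by
  have hsub : K ⊆ closedBall 0 R := by
    intro x hx
    rw [hK] at hx
    simp only [mem_ofPred_eq] at hx
    rw [mem_closedBall_zero_iff]
    by_cases h0 : x = 0
    · simp [h0, hR]
    · refine hx.trans (hρR _ ?_)
      rw [norm_smul, norm_inv, norm_norm, inv_mul_cancel₀ (norm_ne_zero_iff.2 h0)]
  have hint : IntegrableOn (fun x => L x) K μ := by
    refine IntegrableOn.mono_set ?_ hsub
    exact (L.continuous.continuousOn).integrableOn_compact (isCompact_closedBall 0 R)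
  rw [← integral_indicator hKm, integral_polar μ ((integrable_indicator_iff hKm).2 hint)]
  refine integral_congr_ae (Filter.Eventually.of_forall fun u => ?_)
  have hu : ‖(u : E)‖ = 1 := by simpa using u.2
  have hpos : 0 < finrank ℝ E := finrank_pos
  have h1 : ∀ r ∈ Ioi (0 : ℝ), r ^ (finrank ℝ E - 1) • K.indicator (fun x => L x) (r • (u : E)) =
      (Iic (ρ u)).indicator (fun r => r ^ (finrank ℝ E) * L u) r := by
    intro r hr
    have hr' : 0 < r := hr
    have hn : ‖r • (u : E)‖ = r := by rw [norm_smul, hu, mul_one, Real.norm_eq_abs, abs_of_pos hr']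
    have hmem : r • (u : E) ∈ K ↔ r ∈ Iic (ρ u) := by
      rw [hK]
      simp only [mem_ofPred_eq, hn, mem_Iic, smul_smul, inv_mul_cancel₀ hr'.ne', one_smul]
    by_cases h : r ∈ Iic (ρ u)
    · rw [indicator_of_mem (hmem.2 h), indicator_of_mem h]
      have : r ^ (finrank ℝ E) = r ^ (finrank ℝ E - 1) * r := by
        rw [← pow_succ, Nat.sub_add_cancel hpos]
      rw [this, map_smul, smul_eq_mul, smul_eq_mul]
      ring
    · rw [indicator_of_notMem (fun h' => h (hmem.1 h')), indicator_of_notMem h, smul_zero]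
  simp only []
  rw [setIntegral_congr_fun measurableSet_Ioi h1, setIntegral_indicator measurableSet_Iic,
    Ioi_inter_Iic, integral_mul_const, ← intervalIntegral.integral_of_le (hρ0 u hu),
    integral_pow]
  simp

end polar

end Pool.Agent.Lib.MP_be4961_gt
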