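import Mathlib
import Pool.Agent.Lib.MP_be4961_gt.Polar

open MeasureTheory Set Module Metric

namespace Pool.Agent.Lib.MP_be4961_gt

/-- one sided Gaussian moments -/
noncomputable def Rg (n : ℕ) : ℝ := ∫ r in Ioi (0 : ℝ), r ^ n * Real.exp (-r ^ 2)

/-- Gaussian moments -/
noncomputable def gg (n : ℕ) : ℝ := ∫ x : ℝ, x ^ n * Real.exp (-x ^ 2)

theorem Rg_eq (n : ℕ) : Rg n = 1 / 2 * Real.Gamma (((n : ℝ) + 1) / 2) := by
  have h := integral_rpow_mul_exp_neg_rpow (p := 2) (q := n) (by norm_num)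
    (by have : (0 : ℝ) ≤ n := Nat.cast_nonneg n
        linarith)
  rw [← h, Rg]
  refine setIntegral_congr_fun measurableSet_Ioi fun x hx => ?_
  simp only [Real.rpow_natCast]
  norm_num

theorem Rg_pos (n : ℕ) : 0 < Rg n := by
  rw [Rg_eq]
  have : 0 < Real.Gamma (((n : ℝ) + 1) / 2) := Real.Gamma_pos_of_pos (by positivity)
  positivity

theorem Rg_succ_succ (n : ℕ) : Rg (n + 2) = ((n : ℝ) + 1) / 2 * Rg n := by
  rw [Rg_eq, Rg_eq]
  have h : (((n + 2 : ℕ) : ℝ) + 1) / 2 = ((n : ℝ) + 1) / 2 + 1 := by push_cast; ring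
  rw [h, Real.Gamma_add_one (by positivity)]
  ring

theorem gg_even (k : ℕ) : gg (2 * k) = 2 * Rg (2 * k) := by
  rw [gg, Rg, ← integral_comp_abs]
  refine integral_congr_ae (Filter.Eventually.of_forall fun x => ?_)
  simp only [pow_mul, sq_abs]

theorem gg_odd {n : ℕ} (hn : Odd n) : gg n = 0 := by
  have h : gg n = - gg n := by
    conv_lhs => rw [gg, ← integral_neg_eq_self]
    rw [gg, ← integral_neg]
    refine integral_congr_ae (Filter.Eventually.of_forall fun x => ?_)
    simp only [hn.neg_pow, neg_sq]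
    ring
  linarith

theorem gg_integrable (n : ℕ) : Integrable (fun x : ℝ => x ^ n * Real.exp (-x ^ 2)) := by
  have h := integrable_rpow_mul_exp_neg_mul_sq (b := 1) one_pos (s := n)
    (by have : (0 : ℝ) ≤ n := Nat.cast_nonneg n
        linarith)
  refine h.congr (Filter.Eventually.of_forall fun x => ?_)
  simp

section sphere

variable {ι : Type*} [Fintype ι] [Nonempty ι]

theorem gauss_prod (k : ι → ℕ) :
    ∫ x : EuclideanSpace ℝ ι, (∏ i, x i ^ k i) * Real.exp (-‖x‖ ^ 2) = ∏ i, gg (k i) := by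
  have h := (EuclideanSpace.volume_preserving_symm_measurableEquiv_toLp ι).integral_comp'
    (g := fun y : ι → ℝ => ∏ i, (y i ^ k i * Real.exp (-y i ^ 2)))
  rw [integral_fintype_prod_volume_eq_prod (fun i (y : ℝ) => y ^ k i * Real.exp (-y ^ 2))] at h
  rw [show (∏ i, gg (k i)) = ∏ i, ∫ (x : ℝ), x ^ k i * Real.exp (-x ^ 2) from rfl, ← h]
  refine integral_congr_ae (Filter.Eventually.of_forall fun x => ?_)
  simp only [Finset.prod_mul_distrib, ← Real.exp_sum, Finset.sum_neg_distrib,
    EuclideanSpace.real_norm_sq_eq]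
  rfl

theorem gauss_integrable (k : ι → ℕ) :
    Integrable (fun x : EuclideanSpace ℝ ι => (∏ i, x i ^ k i) * Real.exp (-‖x‖ ^ 2)) := by
  have h := (EuclideanSpace.volume_preserving_symm_measurableEquiv_toLp ι).integrable_comp_emb
    (MeasurableEquiv.measurableEmbedding _)
    (g := fun y : ι → ℝ => ∏ i, (y i ^ k i * Real.exp (-y i ^ 2)))
  have h2 := h.2 (Integrable.fintype_prod (fun i => gg_integrable (k i)))
  refine h2.congr (Filter.Eventually.of_forall fun x => ?_)
  simp only [Finset.prod_mul_distrib, ← Real.exp_sum, Finset.sum_neg_distrib,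
    EuclideanSpace.real_norm_sq_eq, Function.comp]
  rfl

/-- Monomial moments over the unit sphere. -/
theorem sphere_moment (k : ι → ℕ) :
    (∫ u : sphere (0 : EuclideanSpace ℝ ι) 1, ∏ i, (u : EuclideanSpace ℝ ι) i ^ k i
      ∂(volume : Measure (EuclideanSpace ℝ ι)).toSphere) * Rg (Fintype.card ι - 1 + ∑ i, k i)
      = ∏ i, gg (k i) := by
  rw [← gauss_prod, integral_polar volume (gauss_integrable k), ← integral_mul_const]
  refine integral_congr_ae (Filter.Eventually.of_forall fun u => ?_)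
  have hu : ‖(u : EuclideanSpace ℝ ι)‖ = 1 := by simp
  simp only [finrank_euclideanSpace]
  rw [Rg, ← integral_const_mul]
  refine setIntegral_congr_fun measurableSet_Ioi fun r hr => ?_
  have hr' : 0 < r := hr
  have hn : ‖r • (u : EuclideanSpace ℝ ι)‖ = r := by
    rw [norm_smul, hu, mul_one, Real.norm_eq_abs, abs_of_pos hr']
  simp only [hn, PiLp.smul_apply, smul_eq_mul, mul_pow, Finset.prod_mul_distrib,
    Finset.prod_pow_eq_pow_sum, pow_add]
  ring

end sphere

end Pool.Agent.Lib.MP_be4961_gt
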