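import Mathlib
import Pool.Agent.Lib.MP_be4961_gt.Moments

open MeasureTheory Set Module Metric

namespace Pool.Agent.Lib.MP_be4961_gt

/-- the plane and the space -/
abbrev V2 := EuclideanSpace ℝ (Fin 2)
abbrev V3 := EuclideanSpace ℝ (Fin 3)

/-- arc length on the unit circle, area on the unit sphere -/
noncomputable abbrev σ2 : Measure (sphere (0 : V2) 1) := (volume : Measure V2).toSphere
noncomputable abbrev σ3 : Measure (sphere (0 : V3) 1) := (volume : Measure V3).toSphere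

theorem int2 {f : sphere (0 : V2) 1 → ℝ} (hf : Continuous f) : Integrable f σ2 := by
  have := hf.continuousOn.integrableOn_compact (μ := σ2) isCompact_univ
  rwa [integrableOn_univ] at this

theorem int3 {f : sphere (0 : V3) 1 → ℝ} (hf : Continuous f) : Integrable f σ3 := by
  have := hf.continuousOn.integrableOn_compact (μ := σ3) isCompact_univ
  rwa [integrableOn_univ] at this

theorem moment2 (a b : ℕ) :
    (∫ u : sphere (0 : V2) 1, (u : V2) 0 ^ a * (u : V2) 1 ^ b ∂σ2) * Rg (1 + (a + b))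
      = gg a * gg b := by
  have h := sphere_moment (ι := Fin 2) ![a, b]
  simpa [Fin.prod_univ_two, Fin.sum_univ_two] using h

theorem moment3 (a b c : ℕ) :
    (∫ u : sphere (0 : V3) 1, (u : V3) 0 ^ a * (u : V3) 1 ^ b * (u : V3) 2 ^ c ∂σ3)
      * Rg (2 + (a + b + c)) = gg a * gg b * gg c := by
  have h := sphere_moment (ι := Fin 3) ![a, b, c]
  simpa [Fin.prod_univ_three, Fin.sum_univ_three] using h

theorem moment2_zero_left {a : ℕ} (ha : Odd a) (b : ℕ) :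
    ∫ u : sphere (0 : V2) 1, (u : V2) 0 ^ a * (u : V2) 1 ^ b ∂σ2 = 0 := by
  have h := moment2 a b
  rw [gg_odd ha, zero_mul] at h
  exact (mul_eq_zero.1 h).resolve_right (Rg_pos _).ne'

theorem moment2_zero_right (a : ℕ) {b : ℕ} (hb : Odd b) :
    ∫ u : sphere (0 : V2) 1, (u : V2) 0 ^ a * (u : V2) 1 ^ b ∂σ2 = 0 := by
  have h := moment2 a b
  rw [gg_odd hb, mul_zero] at h
  exact (mul_eq_zero.1 h).resolve_right (Rg_pos _).ne'

theorem moment3_zero_0 {a : ℕ} (ha : Odd a) (b c : ℕ) :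
    ∫ u : sphere (0 : V3) 1, (u : V3) 0 ^ a * (u : V3) 1 ^ b * (u : V3) 2 ^ c ∂σ3 = 0 := by
  have h := moment3 a b c
  rw [gg_odd ha, zero_mul, zero_mul] at h
  exact (mul_eq_zero.1 h).resolve_right (Rg_pos _).ne'

theorem moment3_zero_1 (a : ℕ) {b : ℕ} (hb : Odd b) (c : ℕ) :
    ∫ u : sphere (0 : V3) 1, (u : V3) 0 ^ a * (u : V3) 1 ^ b * (u : V3) 2 ^ c ∂σ3 = 0 := by
  have h := moment3 a b c
  rw [gg_odd hb, mul_zero, zero_mul] at h
  exact (mul_eq_zero.1 h).resolve_right (Rg_pos _).ne'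

theorem moment3_zero_2 (a b : ℕ) {c : ℕ} (hc : Odd c) :
    ∫ u : sphere (0 : V3) 1, (u : V3) 0 ^ a * (u : V3) 1 ^ b * (u : V3) 2 ^ c ∂σ3 = 0 := by
  have h := moment3 a b c
  rw [gg_odd hc, mul_zero] at h
  exact (mul_eq_zero.1 h).resolve_right (Rg_pos _).ne'

theorem gg_pos (k : ℕ) : 0 < gg (2 * k) := by
  rw [gg_even]; have := Rg_pos (2 * k); positivity

theorem gg_succ (k : ℕ) : gg (2 * (k + 1)) = (2 * (k : ℝ) + 1) / 2 * gg (2 * k) := by
  rw [gg_even, gg_even, show 2 * (k + 1) = 2 * k + 2 from rfl, Rg_succ_succ]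
  push_cast; ring

/-- `∫ u₀² u₁^(2k)` on the circle -/
noncomputable def c2 (k : ℕ) : ℝ :=
  ∫ u : sphere (0 : V2) 1, (u : V2) 0 ^ 2 * (u : V2) 1 ^ (2 * k) ∂σ2

theorem c2_pos (k : ℕ) : 0 < c2 k := by
  have h := moment2 2 (2 * k)
  have h1 := Rg_pos (1 + (2 + 2 * k))
  have h2 : 0 < gg 2 * gg (2 * k) := mul_pos (by simpa using gg_pos 1) (gg_pos k)
  rw [← h] at h2
  exact (pos_iff_pos_of_mul_pos h2).2 h1

theorem c2_succ (k : ℕ) : c2 (k + 1) = (2 * (k : ℝ) + 1) / (2 * k + 4) * c2 k := by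
  have h := moment2 2 (2 * k)
  have h' := moment2 2 (2 * (k + 1))
  rw [gg_succ, show 1 + (2 + 2 * (k + 1)) = (1 + (2 + 2 * k)) + 2 by ring, Rg_succ_succ] at h'
  have h1 := Rg_pos (1 + (2 + 2 * k))
  change c2 k * _ = _ at h
  change c2 (k + 1) * _ = _ at h'
  push_cast at h'
  have h3 : c2 (k + 1) * ((1 + (2 + 2 * (k : ℝ)) + 1) / 2 * Rg (1 + (2 + 2 * k))) =
      (2 * (k : ℝ) + 1) / 2 * (c2 k * Rg (1 + (2 + 2 * k))) := by rw [h', h]; ring
  have h4 : (0 : ℝ) < 2 * k + 4 := by positivity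
  have h5 : (c2 (k + 1) * (2 * k + 4) - (2 * (k : ℝ) + 1) * c2 k) * Rg (1 + (2 + 2 * k)) = 0 := by
    linear_combination 2 * h3
  have h6 := (mul_eq_zero.1 h5).resolve_right h1.ne'
  field_simp
  linarith

/-- `∫ u₁^(2k+2)` on the circle -/
theorem s2_eq (k : ℕ) :
    ∫ u : sphere (0 : V2) 1, (u : V2) 1 ^ 2 * (u : V2) 1 ^ (2 * k) ∂σ2 = (2 * (k : ℝ) + 1) * c2 k := by
  have h := moment2 2 (2 * k)
  have h' := moment2 0 (2 * (k + 1))
  simp only [pow_zero, one_mul, zero_add] at h'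
  have h0 := gg_succ 0
  simp only [zero_add, mul_one, mul_zero, Nat.cast_zero] at h0
  rw [gg_succ, show 1 + (2 * (k + 1)) = 1 + (2 + 2 * k) by ring] at h'
  rw [h0] at h
  have h1 := Rg_pos (1 + (2 + 2 * k))
  change c2 k * _ = _ at h
  have h2 : ∀ u : sphere (0 : V2) 1, (u : V2) 1 ^ 2 * (u : V2) 1 ^ (2 * k)
      = (u : V2) 1 ^ (2 * (k + 1)) := by intro u; ring
  simp only [h2]
  have h5 : ((∫ u : sphere (0 : V2) 1, (u : V2) 1 ^ (2 * (k + 1)) ∂σ2)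
      - (2 * (k : ℝ) + 1) * c2 k) * Rg (1 + (2 + 2 * k)) = 0 := by
    rw [sub_mul, h', mul_assoc, h]; ring
  have h6 := (mul_eq_zero.1 h5).resolve_right h1.ne'
  linarith

/-- `∫ u₀² u₂^(2k)` on the sphere -/
noncomputable def m3 (k : ℕ) : ℝ :=
  ∫ u : sphere (0 : V3) 1, (u : V3) 0 ^ 2 * (u : V3) 1 ^ 0 * (u : V3) 2 ^ (2 * k) ∂σ3

theorem m3_eq' (k : ℕ) :
    ∫ u : sphere (0 : V3) 1, (u : V3) 0 ^ 0 * (u : V3) 1 ^ 2 * (u : V3) 2 ^ (2 * k) ∂σ3 = m3 k := by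
  have h := moment3 2 0 (2 * k)
  have h' := moment3 0 2 (2 * k)
  have h1 := Rg_pos (2 + (2 + 0 + 2 * k))
  change m3 k * _ = _ at h
  rw [show 2 + (0 + 2 + 2 * k) = 2 + (2 + 0 + 2 * k) by ring, mul_comm (gg 0), ← h] at h'
  exact mul_right_cancel₀ h1.ne' h'

theorem m3_succ (k : ℕ) : m3 (k + 1) = (2 * (k : ℝ) + 1) / (2 * k + 5) * m3 k := by
  have h := moment3 2 0 (2 * k)
  have h' := moment3 2 0 (2 * (k + 1))
  rw [gg_succ, show 2 + (2 + 0 + 2 * (k + 1)) = (2 + (2 + 0 + 2 * k)) + 2 by ring,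
    Rg_succ_succ] at h'
  have h1 := Rg_pos (2 + (2 + 0 + 2 * k))
  change m3 k * _ = _ at h
  change m3 (k + 1) * _ = _ at h'
  push_cast at h'
  have h4 : (0 : ℝ) < 2 * k + 5 := by positivity
  have h5 : (m3 (k + 1) * (2 * k + 5) - (2 * (k : ℝ) + 1) * m3 k) * Rg (2 + (2 + 0 + 2 * k)) = 0 := by
    linear_combination 2 * h' - (2 * (k : ℝ) + 1) * h
  have h6 := (mul_eq_zero.1 h5).resolve_right h1.ne'
  field_simp
  linarith

end Pool.Agent.Lib.MP_be4961_gt
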