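import Mathlib
import Pool.Agent.Lib.MP_be4961_gt.Spheres
import Pool.Agent.Lib.MP_be4961_gt.Positivity

open MeasureTheory Set Module Metric

namespace Pool.Agent.Lib.MP_be4961_gt

/-- coefficients -/
noncomputable def ca : ℕ → ℝ
  | 0 => 2 | 1 => -151 | 2 => 2154 | 3 => -11132 | 4 => 25660 | 5 => -26788 | 6 => 10275
  | _ => 0
noncomputable def cb : ℕ → ℝ
  | 0 => 1 | 1 => 1 | 2 => -139 | 3 => 561 | 4 => -123 | 5 => -1674 | 6 => 1485
  | _ => 0

/-- polynomial with given coefficients -/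
noncomputable def P (c : ℕ → ℝ) (x : ℝ) : ℝ := ∑ k ∈ Finset.range 7, c k * x ^ k

theorem P_cont (c : ℕ → ℝ) : Continuous (P c) := by
  unfold P; fun_prop

theorem P_bound (c : ℕ → ℝ) {x : ℝ} (h0 : 0 ≤ x) (h1 : x ≤ 1) :
    |P c x| ≤ ∑ k ∈ Finset.range 7, |c k| := by
  unfold P
  refine (Finset.abs_sum_le_sum_abs _ _).trans (Finset.sum_le_sum fun k _ => ?_)
  rw [abs_mul, abs_of_nonneg (pow_nonneg h0 k)]
  exact mul_le_of_le_one_right (abs_nonneg _) (pow_le_one₀ h0 h1)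

theorem ca_sum : ∑ k ∈ Finset.range 7, |ca k| ≤ 80000 := by
  simp only [Finset.sum_range_succ, Finset.sum_range_zero, ca]
  norm_num [abs_of_pos, abs_of_neg]

theorem cb_sum : ∑ k ∈ Finset.range 7, |cb k| ≤ 4000 := by
  simp only [Finset.sum_range_succ, Finset.sum_range_zero, cb]
  norm_num [abs_of_pos, abs_of_neg]

section circle

theorem coord2_cont (i : Fin 2) : Continuous (fun u : sphere (0 : V2) 1 => (u : V2) i) := by
  fun_prop

theorem coord3_cont (i : Fin 3) : Continuous (fun u : sphere (0 : V3) 1 => (u : V3) i) := by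
  fun_prop

theorem circ_gen (c : ℕ → ℝ) (t : ℝ) (i j : ℕ) :
    ∫ u : sphere (0 : V2) 1, (u : V2) 0 ^ i * (u : V2) 1 ^ j * P c (t * (u : V2) 1 ^ 2) ∂σ2 =
      ∑ k ∈ Finset.range 7, c k * t ^ k *
        ∫ u : sphere (0 : V2) 1, (u : V2) 0 ^ i * (u : V2) 1 ^ (j + 2 * k) ∂σ2 := by
  simp only [P, Finset.mul_sum]
  rw [integral_finsetSum _ (fun k _ => int2 (by fun_prop))]
  refine Finset.sum_congr rfl fun k _ => ?_
  rw [← integral_const_mul]
  refine integral_congr_ae (Filter.Eventually.of_forall fun u => ?_)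
  simp only []
  rw [mul_pow, ← pow_mul, pow_add]
  ring

theorem sph_gen (c : ℕ → ℝ) (i j l : ℕ) :
    ∫ u : sphere (0 : V3) 1, (u : V3) 0 ^ i * (u : V3) 1 ^ j * (u : V3) 2 ^ l *
        P c ((u : V3) 2 ^ 2) ∂σ3 =
      ∑ k ∈ Finset.range 7, c k *
        ∫ u : sphere (0 : V3) 1, (u : V3) 0 ^ i * (u : V3) 1 ^ j * (u : V3) 2 ^ (l + 2 * k) ∂σ3 := by
  simp only [P, Finset.mul_sum]
  rw [integral_finsetSum _ (fun k _ => int3 (by fun_prop))]
  refine Finset.sum_congr rfl fun k _ => ?_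
  rw [← integral_const_mul]
  refine integral_congr_ae (Filter.Eventually.of_forall fun u => ?_)
  simp only []
  rw [← pow_mul, pow_add]
  ring

/-- `∫ u₀² P(t u₁²)` -/
noncomputable def CC (c : ℕ → ℝ) (t : ℝ) : ℝ := ∑ k ∈ Finset.range 7, c k * t ^ k * c2 k
/-- `∫ u₁² P(t u₁²)` -/
noncomputable def QQ (c : ℕ → ℝ) (t : ℝ) : ℝ :=
  ∑ k ∈ Finset.range 7, c k * t ^ k * ((2 * (k : ℝ) + 1) * c2 k)

theorem circ_00 (c : ℕ → ℝ) (t : ℝ) :
    ∫ u : sphere (0 : V2) 1, (u : V2) 0 ^ 2 * P c (t * (u : V2) 1 ^ 2) ∂σ2 = CC c t := by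
  have h := circ_gen c t 2 0
  simp only [pow_zero, mul_one, zero_add] at h
  rw [h]; rfl

theorem circ_11 (c : ℕ → ℝ) (t : ℝ) :
    ∫ u : sphere (0 : V2) 1, (u : V2) 1 ^ 2 * P c (t * (u : V2) 1 ^ 2) ∂σ2 = QQ c t := by
  have h := circ_gen c t 0 2
  simp only [pow_zero, one_mul] at h
  rw [h, QQ]
  refine Finset.sum_congr rfl fun k _ => ?_
  rw [← s2_eq]
  congr 1
  refine integral_congr_ae (Filter.Eventually.of_forall fun u => ?_)
  simp only [pow_add]

theorem circ_01 (c : ℕ → ℝ) (t : ℝ) :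
    ∫ u : sphere (0 : V2) 1, (u : V2) 0 * (u : V2) 1 * P c (t * (u : V2) 1 ^ 2) ∂σ2 = 0 := by
  have h := circ_gen c t 1 1
  simp only [pow_one] at h
  rw [h]
  refine Finset.sum_eq_zero fun k _ => ?_
  have h2 := moment2_zero_left (a := 1) odd_one (1 + 2 * k)
  simp only [pow_one] at h2
  rw [h2, mul_zero]

theorem circ_zero0 : ∫ u : sphere (0 : V2) 1, (u : V2) 0 ∂σ2 = 0 := by
  have h2 := moment2_zero_left (a := 1) odd_one 0
  simpa using h2

theorem m3_sum {c : ℕ → ℝ} (hc : ∑ k ∈ Finset.range 7, c k / ((2 * k + 1) * (2 * k + 3)) = 0) :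
    ∑ k ∈ Finset.range 7, c k * m3 k = 0 := by
  have h : ∀ k, m3 k = 3 / ((2 * k + 1) * (2 * k + 3)) * m3 0 := by
    intro k
    induction k with
    | zero => norm_num
    | succ k ih =>
      rw [m3_succ, ih]
      push_cast
      have : (0 : ℝ) < 2 * k + 1 := by positivity
      have : (0 : ℝ) < 2 * k + 5 := by positivity
      have : (0 : ℝ) < 2 * k + 3 := by positivity
      field_simp
      ring
  have h2 : ∑ k ∈ Finset.range 7, c k * m3 k =
      (∑ k ∈ Finset.range 7, c k / ((2 * k + 1) * (2 * k + 3))) * (3 * m3 0) := by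
    rw [Finset.sum_mul]
    refine Finset.sum_congr rfl fun k _ => ?_
    rw [h k]; ring
  rw [h2, hc, zero_mul]

theorem sph_00 {c : ℕ → ℝ} (hc : ∑ k ∈ Finset.range 7, c k / ((2 * k + 1) * (2 * k + 3)) = 0) :
    ∫ u : sphere (0 : V3) 1, (u : V3) 0 ^ 2 * P c ((u : V3) 2 ^ 2) ∂σ3 = 0 := by
  have h := sph_gen c 2 0 0
  simp only [pow_zero, mul_one, zero_add] at h
  rw [h, ← m3_sum hc]
  refine Finset.sum_congr rfl fun k _ => ?_
  simp [m3]

theorem sph_11 {c : ℕ → ℝ} (hc : ∑ k ∈ Finset.range 7, c k / ((2 * k + 1) * (2 * k + 3)) = 0) :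
    ∫ u : sphere (0 : V3) 1, (u : V3) 1 ^ 2 * P c ((u : V3) 2 ^ 2) ∂σ3 = 0 := by
  have h := sph_gen c 0 2 0
  simp only [pow_zero, mul_one, zero_add, one_mul] at h
  rw [h, ← m3_sum hc]
  refine Finset.sum_congr rfl fun k _ => ?_
  rw [← m3_eq']
  simp

theorem sph_01 (c : ℕ → ℝ) :
    ∫ u : sphere (0 : V3) 1, (u : V3) 0 * (u : V3) 1 * P c ((u : V3) 2 ^ 2) ∂σ3 = 0 := by
  have h := sph_gen c 1 1 0
  simp only [pow_zero, mul_one, zero_add, pow_one] at h
  rw [h]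
  refine Finset.sum_eq_zero fun k _ => ?_
  have h2 := moment3_zero_0 (a := 1) odd_one 1 (2 * k)
  simp only [pow_one] at h2
  rw [h2, mul_zero]

theorem sph_02 (c : ℕ → ℝ) :
    ∫ u : sphere (0 : V3) 1, (u : V3) 0 * (u : V3) 2 * P c ((u : V3) 2 ^ 2) ∂σ3 = 0 := by
  have h := sph_gen c 1 0 1
  simp only [pow_zero, mul_one, pow_one] at h
  rw [h]
  refine Finset.sum_eq_zero fun k _ => ?_
  have h2 := moment3_zero_0 (a := 1) odd_one 0 (1 + 2 * k)
  simp only [pow_one, pow_zero, mul_one] at h2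
  rw [h2, mul_zero]

theorem sph_12 (c : ℕ → ℝ) :
    ∫ u : sphere (0 : V3) 1, (u : V3) 1 * (u : V3) 2 * P c ((u : V3) 2 ^ 2) ∂σ3 = 0 := by
  have h := sph_gen c 0 1 1
  simp only [pow_zero, one_mul, pow_one] at h
  rw [h]
  refine Finset.sum_eq_zero fun k _ => ?_
  have h2 := moment3_zero_1 0 (b := 1) odd_one (1 + 2 * k)
  simp only [pow_one, pow_zero, one_mul] at h2
  rw [h2, mul_zero]

theorem ca_rel : ∑ k ∈ Finset.range 7, ca k / ((2 * k + 1) * (2 * k + 3)) = 0 := by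
  simp only [Finset.sum_range_succ, Finset.sum_range_zero, ca]
  norm_num

theorem cb_rel : ∑ k ∈ Finset.range 7, cb k / ((2 * k + 1) * (2 * k + 3)) = 0 := by
  simp only [Finset.sum_range_succ, Finset.sum_range_zero, cb]
  norm_num

theorem spiral_eq (t : ℝ) :
    CC ca t * QQ ca t + CC cb t * QQ cb t = (c2 0) ^ 2 / 1024 ^ 2 * pp t := by
  have h1 : c2 1 = 1 / 4 * c2 0 := by rw [c2_succ]; norm_num
  have h2 : c2 2 = 1 / 8 * c2 0 := by rw [c2_succ, h1]; norm_num; ring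
  have h3 : c2 3 = 5 / 64 * c2 0 := by rw [c2_succ, h2]; norm_num; ring
  have h4 : c2 4 = 7 / 128 * c2 0 := by rw [c2_succ, h3]; norm_num; ring
  have h5 : c2 5 = 21 / 512 * c2 0 := by rw [c2_succ, h4]; norm_num; ring
  have h6 : c2 6 = 33 / 1024 * c2 0 := by rw [c2_succ, h5]; norm_num; ring
  simp only [CC, QQ, Finset.sum_range_succ, Finset.sum_range_zero, ca, cb, h1, h2, h3, h4, h5, h6,
    pp]
  push_cast
  ring

end circle

end Pool.Agent.Lib.MP_be4961_gt
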