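import Mathlib
import Pool.Agent.Lib.MP_be4961_gt.Coeffs

open MeasureTheory Set Module Metric
open scoped Pointwise

namespace Pool.Agent.Lib.MP_be4961_gt

/-- `w x = (1 + x)^(3/4)` -/
noncomputable def w (x : ℝ) : ℝ := (1 + x) ^ ((3 : ℝ) / 4)

theorem w_zero : w 0 = 1 := by simp [w]

theorem quarter_bound {δ s : ℝ} (hδ : δ ≤ 1 / 2) (hs : |s| ≤ δ) :
    |(1 + s) ^ ((3 : ℝ) / 4 - 1) - 1| ≤ 2 * δ := by
  have hs' := abs_le.1 hs
  have hz : 0 < 1 + s := by linarith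
  have e : (3 : ℝ) / 4 - 1 = -(1 / 4) := by norm_num
  rw [e]
  rcases le_total 0 s with h | h
  · have h1 : (1 + s) ^ (-(1 / 4) : ℝ) ≤ 1 :=
      Real.rpow_le_one_of_one_le_of_nonpos (by linarith) (by norm_num)
    have h2 : (1 + s) ^ (-1 : ℝ) ≤ (1 + s) ^ (-(1 / 4) : ℝ) :=
      Real.rpow_le_rpow_of_exponent_le (by linarith) (by norm_num)
    have h3 : 1 - s ≤ (1 + s) ^ (-1 : ℝ) := by
      rw [Real.rpow_neg_one, ← one_div, le_div_iff₀ hz]
      nlinarith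
    rw [abs_le]
    constructor <;> linarith
  · have h1 : 1 ≤ (1 + s) ^ (-(1 / 4) : ℝ) :=
      Real.one_le_rpow_of_pos_of_le_one_of_nonpos hz (by linarith) (by norm_num)
    have h2 : (1 + s) ^ (-(1 / 4) : ℝ) ≤ (1 + s) ^ (-1 : ℝ) :=
      Real.rpow_le_rpow_of_exponent_ge hz (by linarith) (by norm_num)
    have h3 : (1 + s) ^ (-1 : ℝ) ≤ 1 - 2 * s := by
      rw [Real.rpow_neg_one, ← one_div, div_le_iff₀ hz]
      nlinarith
    rw [abs_le]
    constructor <;> linarith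

theorem w_est {δ x y : ℝ} (hδ : δ ≤ 1 / 2) (hx : |x| ≤ δ) (hy : |y| ≤ δ) :
    |w x - w y - 3 / 4 * (x - y)| ≤ 2 * δ * |x - y| := by
  have hd : ∀ s ∈ Icc (-δ) δ, HasDerivWithinAt (fun s => w s - 3 / 4 * s)
      (3 / 4 * ((1 + s) ^ ((3 : ℝ) / 4 - 1) - 1)) (Icc (-δ) δ) s := by
    intro s hs
    have hz : 0 < 1 + s := by linarith [hs.1]
    have h1 : HasDerivAt (fun s : ℝ => 1 + s) 1 s := by
      simpa using (hasDerivAt_id s).const_add 1
    have h2 := h1.rpow_const (p := (3 : ℝ) / 4) (Or.inl hz.ne')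
    have h3 : HasDerivAt (fun s => w s - 3 / 4 * s)
        (1 * (3 / 4) * (1 + s) ^ ((3 : ℝ) / 4 - 1) - 3 / 4 * 1) s :=
      h2.sub ((hasDerivAt_id s).const_mul (3 / 4 : ℝ))
    exact (h3.congr_deriv (by ring)).hasDerivWithinAt
  have hb : ∀ s ∈ Icc (-δ) δ, ‖3 / 4 * ((1 + s) ^ ((3 : ℝ) / 4 - 1) - 1)‖ ≤ 2 * δ := by
    intro s hs
    have h := quarter_bound hδ (abs_le.2 hs)
    rw [Real.norm_eq_abs, abs_mul, abs_of_pos (by norm_num : (0 : ℝ) < 3 / 4)]
    have := abs_nonneg ((1 + s) ^ ((3 : ℝ) / 4 - 1) - 1)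
    linarith
  have := (convex_Icc (-δ) δ).norm_image_sub_le_of_norm_hasDerivWithin_le hd hb
    (abs_le.1 hy) (abs_le.1 hx)
  rw [Real.norm_eq_abs, Real.norm_eq_abs] at this
  have e : w x - 3 / 4 * x - (w y - 3 / 4 * y) = w x - w y - 3 / 4 * (x - y) := by ring
  rwa [e] at this

theorem w_comp_cont {f : sphere (0 : V2) 1 → ℝ} (hf : Continuous f) {δ : ℝ} (hδ : δ ≤ 1 / 2)
    (hb : ∀ y, |f y| ≤ δ) : Continuous (fun y => w (f y)) := by
  unfold w
  refine Continuous.rpow_const (by fun_prop) fun y => Or.inl ?_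
  have := abs_le.1 (hb y)
  linarith

/-- total length of the circle -/
noncomputable def S : ℝ := σ2.real univ

theorem S_nonneg : 0 ≤ S := measureReal_nonneg

theorem abs_integral_le {f : sphere (0 : V2) 1 → ℝ} {C : ℝ} (h : ∀ y, |f y| ≤ C) :
    |∫ y, f y ∂σ2| ≤ C * S := by
  have := norm_integral_le_of_norm_le_const (μ := σ2) (f := f) (C := C)
    (Filter.Eventually.of_forall h)
  exact this

theorem gen_est {g X X' : sphere (0 : V2) 1 → ℝ} (hg : Continuous g) (hX : Continuous X)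
    (hX' : Continuous X') {δ D : ℝ} (hδ : δ ≤ 1 / 2) (h1 : ∀ y, |X y| ≤ δ) (h2 : ∀ y, |X' y| ≤ δ)
    (h3 : ∀ y, |g y| ≤ 1) (h4 : ∀ y, |X y - X' y| ≤ D) :
    |(∫ y, g y * w (X y) ∂σ2) - (∫ y, g y * w (X' y) ∂σ2)
      - 3 / 4 * ∫ y, g y * (X y - X' y) ∂σ2| ≤ 2 * δ * D * S := by
  have c1 : Continuous (fun y => g y * w (X y)) := hg.mul (w_comp_cont hX hδ h1)
  have c2 : Continuous (fun y => g y * w (X' y)) := hg.mul (w_comp_cont hX' hδ h2)
  have c3 : Continuous (fun y => g y * (X y - X' y)) := hg.mul (hX.sub hX')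
  have c12 : Continuous (fun y => g y * w (X y) - g y * w (X' y)) := c1.sub c2
  have c34 : Continuous (fun y => 3 / 4 * (g y * (X y - X' y))) := continuous_const.mul c3
  rw [← integral_sub (int2 c1) (int2 c2), ← integral_const_mul,
    ← integral_sub (int2 c12) (int2 c34)]
  refine abs_integral_le fun y => ?_
  have e : g y * w (X y) - g y * w (X' y) - 3 / 4 * (g y * (X y - X' y))
    = g y * (w (X y) - w (X' y) - 3 / 4 * (X y - X' y)) := by ring
  rw [e, abs_mul]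
  have h5 := w_est hδ (h1 y) (h2 y)
  have hδ0 : 0 ≤ δ := (abs_nonneg _).trans (h1 y)
  have h6 : 2 * δ * |X y - X' y| ≤ 2 * δ * D :=
    mul_le_mul_of_nonneg_left (h4 y) (by positivity)
  calc |g y| * |w (X y) - w (X' y) - 3 / 4 * (X y - X' y)|
      ≤ 1 * (2 * δ * D) := mul_le_mul (h3 y) (h5.trans h6) (abs_nonneg _) zero_le_one
    _ = 2 * δ * D := one_mul _

/-- the map induced on the sphere by a linear isometry -/
noncomputable def sphMap (R : V2 ≃ₗᵢ[ℝ] V2) (u : sphere (0 : V2) 1) : sphere (0 : V2) 1 :=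
  ⟨R u, by simp⟩

theorem sphMap_cont (R : V2 ≃ₗᵢ[ℝ] V2) : Continuous (sphMap R) := by
  unfold sphMap
  exact Continuous.subtype_mk (R.continuous.comp continuous_subtype_val) _

theorem sphMap_map (R : V2 ≃ₗᵢ[ℝ] V2) : Measure.map (sphMap R) σ2 = σ2 := by
  ext s hs
  rw [Measure.map_apply (sphMap_cont R).measurable hs,
    Measure.toSphere_apply' _ ((sphMap_cont R).measurable hs), Measure.toSphere_apply' _ hs]
  congr 1
  have hset : Ioo (0 : ℝ) 1 • ((↑) '' (sphMap R ⁻¹' s) : Set V2)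
      = R ⁻¹' (Ioo (0 : ℝ) 1 • ((↑) '' s : Set V2)) := by
    ext x
    simp only [mem_smul, mem_image, mem_preimage]
    constructor
    · rintro ⟨r, hr, y, ⟨u, hu, rfl⟩, rfl⟩
      exact ⟨r, hr, R u, ⟨sphMap R u, hu, rfl⟩, by simp⟩
    · rintro ⟨r, hr, y, ⟨u, hu, rfl⟩, h⟩
      refine ⟨r, hr, R.symm u, ⟨⟨R.symm u, by simp⟩, ?_, rfl⟩, ?_⟩
      · have : sphMap R ⟨R.symm u, by simp⟩ = u := by
          ext1; simp [sphMap]
        rwa [this]
      · rw [← map_smul]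
        have := congrArg R.symm h
        simpa using this
  rw [hset]
  exact (R.measurePreserving).measure_preimage_equiv (f := R.toHomeomorph.toMeasurableEquiv) _

theorem sphMap_integral (R : V2 ≃ₗᵢ[ℝ] V2) {f : sphere (0 : V2) 1 → ℝ} (hf : Continuous f) :
    ∫ u, f (sphMap R u) ∂σ2 = ∫ u, f u ∂σ2 := by
  conv_rhs => rw [← sphMap_map R]
  rw [integral_map (sphMap_cont R).aemeasurable]
  exact hf.aestronglyMeasurable

end Pool.Agent.Lib.MP_be4961_gt
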