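import Mathlib

open MeasureTheory Set Module Metric
open scoped InnerProductSpace

namespace Pool.Agent.Lib.MP_be4961_gt

section body

variable {V : Type*} [NormedAddCommGroup V] [InnerProductSpace ℝ V]

/-- radial function -/
noncomputable def rho (β : V → ℝ) (ε : ℝ) (u : V) : ℝ := (1 + 4 * ε * β u) ^ ((1 : ℝ) / 4)

/-- star body with radial function `rho` -/
def KK (β : V → ℝ) (ε : ℝ) : Set V := {x | ‖x‖ ≤ rho β ε (‖x‖⁻¹ • x)}

theorem c2_taylor [FiniteDimensional ℝ V] {β : V → ℝ} (hβ : ContDiff ℝ 2 β) :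
    ∃ C : ℝ, 0 ≤ C ∧ (∀ v ∈ closedBall (0 : V) 1, |β v| ≤ C) ∧
      (∀ v ∈ closedBall (0 : V) 1, ‖fderiv ℝ β v‖ ≤ C) ∧
      ∀ u ∈ closedBall (0 : V) 1, ∀ v ∈ closedBall (0 : V) 1,
        |β u - β v - fderiv ℝ β v (u - v)| ≤ C * ‖u - v‖ ^ 2 := by
  have hd1 : ContDiff ℝ 1 (fderiv ℝ β) := hβ.fderiv_right (by norm_num)
  have hdiff : Differentiable ℝ (fderiv ℝ β) := hd1.differentiable (by norm_num)
  have hdiffβ : Differentiable ℝ β := hβ.differentiable (by norm_num)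
  obtain ⟨C1, hC1⟩ := (isCompact_closedBall (0 : V) 1).exists_bound_of_continuousOn
    hβ.continuous.continuousOn
  obtain ⟨C2, hC2⟩ := (isCompact_closedBall (0 : V) 1).exists_bound_of_continuousOn
    hd1.continuous.continuousOn
  have hc3 : Continuous (fun v => ‖fderiv ℝ (fderiv ℝ β) v‖) :=
    (hd1.continuous_fderiv (by norm_num)).norm
  obtain ⟨C3, hC3'⟩ := (isCompact_closedBall (0 : V) 1).exists_bound_of_continuousOn
    hc3.continuousOn
  have hC3 : ∀ v ∈ closedBall (0 : V) 1, ‖fderiv ℝ (fderiv ℝ β) v‖ ≤ C3 := fun v hv =>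
    (le_abs_self _).trans (hC3' v hv)
  refine ⟨max 0 (max C1 (max C2 C3)), le_max_left _ _, ?_, ?_, ?_⟩
  · intro v hv
    exact (hC1 v hv).trans ((le_max_left _ _).trans (le_max_right _ _))
  · intro v hv
    exact (hC2 v hv).trans ((le_max_left _ _).trans ((le_max_right _ _).trans (le_max_right _ _)))
  · intro u hu v hv
    have hC3' : C3 ≤ max 0 (max C1 (max C2 C3)) :=
      (le_max_right _ _).trans ((le_max_right _ _).trans (le_max_right _ _))
    set C := max 0 (max C1 (max C2 C3))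
    have hconv : Convex ℝ (closedBall (0 : V) 1) := convex_closedBall 0 1
    have hLip : ∀ x ∈ closedBall (0 : V) 1, ‖fderiv ℝ β x - fderiv ℝ β v‖ ≤ C * ‖x - v‖ := by
      intro x hx
      exact hconv.norm_image_sub_le_of_norm_fderiv_le (fun y _ => hdiff y)
        (fun y hy => (hC3 y hy).trans hC3') hv hx
    have hseg : segment ℝ v u ⊆ closedBall (0 : V) 1 := hconv.segment_subset hv hu
    have h := (convex_segment v u).norm_image_sub_le_of_norm_fderiv_le' (f := β)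
      (φ := fderiv ℝ β v) (C := C * ‖u - v‖) (fun y _ => hdiffβ y) (fun y hy => by
        refine (hLip y (hseg hy)).trans ?_
        refine mul_le_mul_of_nonneg_left ?_ (le_max_left _ _)
        have := norm_sub_le_of_mem_segment hy
        simpa [norm_sub_rev] using this) (left_mem_segment ℝ v u) (right_mem_segment ℝ v u)
    rw [Real.norm_eq_abs] at h
    calc |β u - β v - fderiv ℝ β v (u - v)| ≤ C * ‖u - v‖ * ‖u - v‖ := h
      _ = C * ‖u - v‖ ^ 2 := by ring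

theorem amgm {a b : ℝ} (ha : 0 < a) (hb : 0 < b) :
    1 / a - (b ^ 4 - a ^ 4) / (4 * a ^ 5) ≤ 1 / b := by
  have h : 0 ≤ (a - b) ^ 2 * (4 * a ^ 3 + 3 * a ^ 2 * b + 2 * a * b ^ 2 + b ^ 3) := by positivity
  have e : 1 / b - (1 / a - (b ^ 4 - a ^ 4) / (4 * a ^ 5)) =
      ((a - b) ^ 2 * (4 * a ^ 3 + 3 * a ^ 2 * b + 2 * a * b ^ 2 + b ^ 3)) / (4 * a ^ 5 * b) := by
    field_simp
    ring
  have h2 : 0 ≤ 1 / b - (1 / a - (b ^ 4 - a ^ 4) / (4 * a ^ 5)) := by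
    rw [e]; positivity
  linarith

/-- support functional at `v` -/
noncomputable def supp (β : V → ℝ) (ε : ℝ) (v : V) : V →L[ℝ] ℝ :=
  (rho β ε v)⁻¹ • innerSL ℝ v -
    (ε * (rho β ε v)⁻¹ ^ 5) • (fderiv ℝ β v - (fderiv ℝ β v v) • innerSL ℝ v)

theorem supp_apply (β : V → ℝ) (ε : ℝ) (v p : V) :
    supp β ε v p = (rho β ε v)⁻¹ * ⟪v, p⟫_ℝ -
      (ε * (rho β ε v)⁻¹ ^ 5) * (fderiv ℝ β v p - (fderiv ℝ β v v) * ⟪v, p⟫_ℝ) := by
  simp [supp]

theorem supp_self (β : V → ℝ) (ε : ℝ) {v : V} (hv : ‖v‖ = 1) :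
    supp β ε v v = (rho β ε v)⁻¹ := by
  rw [supp_apply, real_inner_self_eq_norm_sq, hv]
  ring

omit [NormedAddCommGroup V] [InnerProductSpace ℝ V] in
theorem rho_pow4 {β : V → ℝ} {ε : ℝ} {u : V} (h : 0 ≤ 1 + 4 * ε * β u) :
    rho β ε u ^ 4 = 1 + 4 * ε * β u := by
  rw [rho, ← Real.rpow_natCast, ← Real.rpow_mul h]
  norm_num

theorem supp_le {β : V → ℝ} {ε C : ℝ} (hε : 0 ≤ ε) {u v : V} (hu : ‖u‖ = 1) (hv : ‖v‖ = 1)
    (hCv : ‖fderiv ℝ β v‖ ≤ C) (hT : |β u - β v - fderiv ℝ β v (u - v)| ≤ C * ‖u - v‖ ^ 2)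
    (hu4 : 1 / 2 ≤ 1 + 4 * ε * β u) (hv4 : 1 / 2 ≤ 1 + 4 * ε * β v) (hεC : ε * (2 * C) ≤ 1 / 4) :
    supp β ε v u ≤ (rho β ε u)⁻¹ := by
  set a := rho β ε v with ha
  set b := rho β ε u with hb
  have ha4 : a ^ 4 = 1 + 4 * ε * β v := rho_pow4 (by linarith)
  have hb4 : b ^ 4 = 1 + 4 * ε * β u := rho_pow4 (by linarith)
  have ha0 : 0 < a := Real.rpow_pos_of_pos (by linarith) _
  have hb0 : 0 < b := Real.rpow_pos_of_pos (by linarith) _
  have h1 := amgm ha0 hb0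
  set s := ‖u - v‖ ^ 2 with hs
  have hs0 : 0 ≤ s := by positivity
  have hin : ⟪v, u⟫_ℝ = 1 - s / 2 := by
    have := norm_sub_sq_real u v
    rw [hu, hv, real_inner_comm] at this
    rw [hs]; linarith
  have hG : |fderiv ℝ β v v| ≤ C := by
    have := (fderiv ℝ β v).le_opNorm v
    rw [hv, mul_one] at this
    exact this.trans hCv
  have hlin : fderiv ℝ β v u = fderiv ℝ β v (u - v) + fderiv ℝ β v v := by
    rw [map_sub]; ring
  have hT' := (abs_le.1 hT).2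
  have hG' := (abs_le.1 hG).1
  rw [supp_apply, hin, hlin]
  set D := fderiv ℝ β v (u - v) with hD
  set G := fderiv ℝ β v v with hGd
  have hdiff : b ^ 4 - a ^ 4 = 4 * ε * (β u - β v) := by rw [ha4, hb4]; ring
  rw [hdiff] at h1
  have e1 : 1 / a - 4 * ε * (β u - β v) / (4 * a ^ 5) = a⁻¹ - ε * a⁻¹ ^ 5 * (β u - β v) := by
    field_simp
  rw [e1, one_div] at h1
  refine le_trans ?_ h1
  have hai : 0 < a⁻¹ := inv_pos.2 ha0
  have e2 : a⁻¹ - ε * a⁻¹ ^ 5 * (β u - β v) -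
      (a⁻¹ * (1 - s / 2) - ε * a⁻¹ ^ 5 * (D + G - G * (1 - s / 2))) =
      a⁻¹ ^ 5 * (a ^ 4 * s / 2 - ε * ((β u - β v - D) - G * s / 2)) := by
    field_simp
    ring
  have e3 : 0 ≤ a ^ 4 * s / 2 - ε * ((β u - β v - D) - G * s / 2) := by
    have k1 : (β u - β v - D) - G * s / 2 ≤ 2 * C * s := by
      have : -(C * s) ≤ G * s := by nlinarith
      have hC0 : 0 ≤ C := (norm_nonneg _).trans hCv
      nlinarith [mul_nonneg hC0 hs0]
    have k2 : ε * ((β u - β v - D) - G * s / 2) ≤ ε * (2 * C * s) :=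
      mul_le_mul_of_nonneg_left k1 hε
    have k3 : ε * (2 * C * s) ≤ 1 / 4 * s := by
      have := mul_le_mul_of_nonneg_right hεC hs0
      linarith
    have k4 : 1 / 4 * s ≤ a ^ 4 * s / 2 := by
      rw [ha4]
      nlinarith
    linarith
  have e4 : 0 ≤ a⁻¹ ^ 5 * (a ^ 4 * s / 2 - ε * ((β u - β v - D) - G * s / 2)) := by positivity
  linarith

theorem KK_eq_inter {β : V → ℝ} {ε C : ℝ} (hε : 0 ≤ ε)
    (hb : ∀ v ∈ closedBall (0 : V) 1, |β v| ≤ C)
    (hd : ∀ v ∈ closedBall (0 : V) 1, ‖fderiv ℝ β v‖ ≤ C)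
    (hT : ∀ u ∈ closedBall (0 : V) 1, ∀ v ∈ closedBall (0 : V) 1,
        |β u - β v - fderiv ℝ β v (u - v)| ≤ C * ‖u - v‖ ^ 2)
    (hεC : ε * (8 * C) ≤ 1) :
    KK β ε = ⋂ v ∈ sphere (0 : V) 1, {p | supp β ε v p ≤ 1} := by
  have hC0 : 0 ≤ C := (abs_nonneg _).trans (hb 0 (by simp))
  have hmem : ∀ u : V, ‖u‖ = 1 → u ∈ closedBall (0 : V) 1 := fun u hu => by simp [hu]
  have h4 : ∀ u ∈ closedBall (0 : V) 1, 1 / 2 ≤ 1 + 4 * ε * β u := by
    intro u hu
    have := (abs_le.1 (hb u hu)).1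
    nlinarith
  have hpos : ∀ u ∈ closedBall (0 : V) 1, 0 < rho β ε u := fun u hu =>
    Real.rpow_pos_of_pos (by linarith [h4 u hu]) _
  ext p
  simp only [mem_iInter, mem_sphere_iff_norm, sub_zero, mem_ofPred_eq, KK]
  by_cases hp : p = 0
  · subst hp
    simp only [norm_zero, smul_zero, map_zero, zero_le_one, implies_true, iff_true]
    exact (hpos 0 (by simp)).le
  have hn : 0 < ‖p‖ := norm_pos_iff.2 hp
  set u := ‖p‖⁻¹ • p with hu
  have hu1 : ‖u‖ = 1 := by rw [hu, norm_smul, norm_inv, norm_norm, inv_mul_cancel₀ hn.ne']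
  have hpu : p = ‖p‖ • u := by rw [hu, smul_smul, mul_inv_cancel₀ hn.ne', one_smul]
  have hru := hpos u (hmem u hu1)
  constructor
  · intro h v hv
    have h1 := supp_le hε hu1 hv (hd v (hmem v hv)) (hT u (hmem u hu1) v (hmem v hv))
      (h4 u (hmem u hu1)) (h4 v (hmem v hv)) (by linarith)
    rw [hpu, map_smul, smul_eq_mul]
    calc ‖p‖ * supp β ε v u ≤ rho β ε u * (rho β ε u)⁻¹ := by
          refine (mul_le_mul_of_nonneg_left h1 hn.le).trans ?_
          exact mul_le_mul_of_nonneg_right h (inv_nonneg.2 hru.le)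
      _ = 1 := mul_inv_cancel₀ hru.ne'
  · intro h
    have h1 := h u hu1
    rw [hpu, map_smul, smul_eq_mul, supp_self β ε hu1, ← div_eq_mul_inv, div_le_one hru] at h1
    exact h1

theorem KK_props [FiniteDimensional ℝ V] {β : V → ℝ} (hβ : ContDiff ℝ 2 β) :
    ∃ ε1 : ℝ, 0 < ε1 ∧ ∀ ε, 0 < ε → ε ≤ ε1 →
      Convex ℝ (KK β ε) ∧ IsCompact (KK β ε) ∧ ball (0 : V) (1 / 2) ⊆ KK β ε ∧
      (∀ u, ‖u‖ = 1 → 1 / 2 ≤ 1 + 4 * ε * β u) ∧ (∀ u, ‖u‖ = 1 → 0 ≤ rho β ε u) ∧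
      (∀ u, ‖u‖ = 1 → rho β ε u ≤ 2) := by
  obtain ⟨C, hC0, hb, hd, hT⟩ := c2_taylor hβ
  refine ⟨1 / (8 * C + 1), by positivity, fun ε hε hle => ?_⟩
  have hεC : ε * (8 * C) ≤ 1 := by
    rw [le_div_iff₀ (by positivity)] at hle
    nlinarith
  have hK := KK_eq_inter hε.le hb hd hT hεC
  have hconv : Convex ℝ (KK β ε) := by
    rw [hK]
    refine convex_iInter₂ fun v _ => ?_
    exact convex_halfSpace_le (supp β ε v).toLinearMap.isLinear 1
  have hclosed : IsClosed (KK β ε) := by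
    rw [hK]
    refine isClosed_biInter fun v _ => ?_
    exact isClosed_le (supp β ε v).continuous continuous_const
  have hmem : ∀ u : V, ‖u‖ = 1 → u ∈ closedBall (0 : V) 1 := fun u hu => by simp [hu]
  have h4 : ∀ u ∈ closedBall (0 : V) 1, 1 / 2 ≤ 1 + 4 * ε * β u ∧ 1 + 4 * ε * β u ≤ 3 / 2 := by
    intro u hu
    have := abs_le.1 (hb u hu)
    constructor <;> nlinarith
  have hr : ∀ u ∈ closedBall (0 : V) 1, 1 / 2 ≤ rho β ε u ∧ rho β ε u ≤ 2 := by
    intro u hu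
    have h5 := h4 u hu
    have h6 : rho β ε u ^ 4 = 1 + 4 * ε * β u := rho_pow4 (by linarith)
    have h7 : 0 ≤ rho β ε u := Real.rpow_nonneg (by linarith) _
    constructor
    · by_contra h
      push Not at h
      have : rho β ε u ^ 4 < (1 / 2) ^ 4 := pow_lt_pow_left₀ h h7 (by norm_num)
      norm_num at this
      linarith
    · by_contra h
      push Not at h
      have : (2 : ℝ) ^ 4 < rho β ε u ^ 4 := pow_lt_pow_left₀ h (by norm_num) (by norm_num)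
      norm_num at this
      linarith
  have hunit : ∀ p : V, ‖p‖⁻¹ • p ∈ closedBall (0 : V) 1 := by
    intro p
    by_cases hp : p = 0
    · simp [hp]
    · apply hmem
      rw [norm_smul, norm_inv, norm_norm, inv_mul_cancel₀ (norm_ne_zero_iff.2 hp)]
  refine ⟨hconv, ?_, ?_, fun u hu => (h4 u (hmem u hu)).1, fun u hu => ?_, fun u hu =>
    (hr u (hmem u hu)).2⟩
  · refine (isCompact_closedBall (0 : V) 2).of_isClosed_subset hclosed ?_
    intro p hp
    rw [mem_closedBall_zero_iff]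
    exact (show ‖p‖ ≤ rho β ε (‖p‖⁻¹ • p) from hp).trans (hr _ (hunit p)).2
  · intro p hp
    rw [mem_ball_zero_iff] at hp
    exact hp.le.trans (hr _ (hunit p)).1
  · linarith [(hr u (hmem u hu)).1]

end body

end Pool.Agent.Lib.MP_be4961_gt
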