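import Mathlib
import Pool.Agent.Lib.MP_be4961_gt.Analysis

open MeasureTheory Set Module Metric
open scoped Pointwise

namespace Pool.Agent.Lib.MP_be4961_gt

theorem sph_sq (u : sphere (0 : V2) 1) : (u : V2) 0 ^ 2 + (u : V2) 1 ^ 2 = 1 := by
  have h : ‖(u : V2)‖ ^ 2 = 1 := by simp
  rw [EuclideanSpace.real_norm_sq_eq, Fin.sum_univ_two] at h
  exact h

theorem sph_abs0 (u : sphere (0 : V2) 1) : |(u : V2) 0| ≤ 1 := by
  have h := sph_sq u
  rw [← sq_le_one_iff_abs_le_one]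
  nlinarith [sq_nonneg ((u : V2) 1)]

theorem sph_abs1 (u : sphere (0 : V2) 1) : |(u : V2) 1| ≤ 1 := by
  have h := sph_sq u
  rw [← sq_le_one_iff_abs_le_one]
  nlinarith [sq_nonneg ((u : V2) 0)]

/-- sign changes -/
noncomputable def R0 : V2 ≃ₗᵢ[ℝ] V2 :=
  LinearIsometryEquiv.piLpCongrRight 2
    (fun i : Fin 2 => if i = 0 then LinearIsometryEquiv.neg ℝ else LinearIsometryEquiv.refl ℝ ℝ)
noncomputable def R1 : V2 ≃ₗᵢ[ℝ] V2 :=
  LinearIsometryEquiv.piLpCongrRight 2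
    (fun i : Fin 2 => if i = 1 then LinearIsometryEquiv.neg ℝ else LinearIsometryEquiv.refl ℝ ℝ)

theorem R0_0 (y : V2) : R0 y 0 = - y 0 := by simp [R0]
theorem R0_1 (y : V2) : R0 y 1 = y 1 := by simp [R0]
theorem R1_0 (y : V2) : R1 y 0 = y 0 := by simp [R1]
theorem R1_1 (y : V2) : R1 y 1 = - y 1 := by simp [R1]

/-- the perturbation seen in a plane -/
noncomputable def bb (n0 n1 ξ t : ℝ) (y : V2) : ℝ :=
  y 0 * (-n1 * P ca (t * y 1 ^ 2) + n0 * P cb (t * y 1 ^ 2)) +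
    ξ * (y 1 * (n0 * P ca (t * y 1 ^ 2) + n1 * P cb (t * y 1 ^ 2)))

theorem bb_cont (n0 n1 ξ t : ℝ) : Continuous (fun u : sphere (0 : V2) 1 => bb n0 n1 ξ t u) := by
  have := P_cont ca
  have := P_cont cb
  unfold bb
  fun_prop

noncomputable def EE (ε n0 n1 ξ t : ℝ) : ℝ :=
  ∫ u : sphere (0 : V2) 1, (u : V2) 0 * w (4 * ε * bb n0 n1 ξ t u) ∂σ2
noncomputable def TT (ε n0 n1 ξ t : ℝ) : ℝ :=
  ∫ u : sphere (0 : V2) 1, (u : V2) 1 * w (4 * ε * bb n0 n1 ξ t u) ∂σ2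

theorem comb_bound {p q x a b : ℝ} (hp : |p| ≤ a) (hq : |q| ≤ a) (ha : 0 ≤ a)
    (hx0 : 0 ≤ x) (hx1 : x ≤ 1) (_hb : b = 84000 * a) :
    |p * P ca x + q * P cb x| ≤ b := by
  have h1 := (P_bound ca hx0 hx1).trans ca_sum
  have h2 := (P_bound cb hx0 hx1).trans cb_sum
  calc |p * P ca x + q * P cb x| ≤ |p| * |P ca x| + |q| * |P cb x| := by
        rw [← abs_mul, ← abs_mul]; exact abs_add_le _ _
    _ ≤ a * 80000 + a * 4000 := by
        gcongr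
    _ = b := by rw [_hb]; ring

theorem t_sq_mem {t : ℝ} (h0 : 0 ≤ t) (h1 : t ≤ 1) (u : sphere (0 : V2) 1) :
    0 ≤ t * (u : V2) 1 ^ 2 ∧ t * (u : V2) 1 ^ 2 ≤ 1 := by
  have h := sph_sq u
  have h2 : (u : V2) 1 ^ 2 ≤ 1 := by nlinarith [sq_nonneg ((u : V2) 0)]
  constructor
  · positivity
  · nlinarith [sq_nonneg ((u : V2) 1)]

theorem bb_bound {n0 n1 ξ t : ℝ} (hn0 : |n0| ≤ 1) (hn1 : |n1| ≤ 1) (hξ : |ξ| ≤ 1)
    (h0 : 0 ≤ t) (h1 : t ≤ 1) (u : sphere (0 : V2) 1) : |bb n0 n1 ξ t u| ≤ 168000 := by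
  obtain ⟨hx0, hx1⟩ := t_sq_mem h0 h1 u
  have k1 := comb_bound (p := -n1) (q := n0) (a := 1) (b := 84000) (by rwa [abs_neg]) hn0
    zero_le_one hx0 hx1 (by norm_num)
  have k2 := comb_bound (p := n0) (q := n1) (a := 1) (b := 84000) hn0 hn1
    zero_le_one hx0 hx1 (by norm_num)
  have k3 := sph_abs0 u
  have k4 := sph_abs1 u
  unfold bb
  refine (abs_add_le _ _).trans ?_
  rw [abs_mul, abs_mul, abs_mul]
  have m1 : |(u : V2) 0| * |(-n1) * P ca (t * (u : V2) 1 ^ 2) + n0 * P cb (t * (u : V2) 1 ^ 2)|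
      ≤ 1 * 84000 := by gcongr
  have m2 : |ξ| * (|(u : V2) 1| * |n0 * P ca (t * (u : V2) 1 ^ 2) + n1 * P cb (t * (u : V2) 1 ^ 2)|)
      ≤ 1 * (1 * 84000) := by gcongr
  linarith

/-- `∫ y₀ bb` -/
theorem int_y0_bb (n0 n1 ξ t : ℝ) :
    ∫ u : sphere (0 : V2) 1, (u : V2) 0 * bb n0 n1 ξ t u ∂σ2 = -n1 * CC ca t + n0 * CC cb t := by
  have ha := P_cont ca
  have hb := P_cont cb
  have e : ∀ u : sphere (0 : V2) 1, (u : V2) 0 * bb n0 n1 ξ t u =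
      (-n1 * ((u : V2) 0 ^ 2 * P ca (t * (u : V2) 1 ^ 2)) +
        n0 * ((u : V2) 0 ^ 2 * P cb (t * (u : V2) 1 ^ 2))) +
      (ξ * n0 * ((u : V2) 0 * (u : V2) 1 * P ca (t * (u : V2) 1 ^ 2)) +
        ξ * n1 * ((u : V2) 0 * (u : V2) 1 * P cb (t * (u : V2) 1 ^ 2))) := by
    intro u; unfold bb; ring
  simp only [e]
  rw [integral_add (int2 (by fun_prop)) (int2 (by fun_prop)),
    integral_add (int2 (by fun_prop)) (int2 (by fun_prop)),
    integral_add (int2 (by fun_prop)) (int2 (by fun_prop)),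
    integral_const_mul, integral_const_mul, integral_const_mul, integral_const_mul,
    circ_00, circ_00, circ_01, circ_01]
  ring

theorem EE_est {ε n0 n1 ξ t δ : ℝ} (hε : 0 ≤ ε) (hδ : δ = 672000 * ε) (hδ2 : δ ≤ 1 / 2)
    (hn0 : |n0| ≤ 1) (hn1 : |n1| ≤ 1) (hξ : |ξ| ≤ 1) (h0 : 0 ≤ t) (h1 : t ≤ 1) :
    |EE ε n0 n1 ξ t - 3 * ε * (-n1 * CC ca t + n0 * CC cb t)| ≤ 2 * δ * δ * S := by
  have hX : ∀ u : sphere (0 : V2) 1, |4 * ε * bb n0 n1 ξ t u| ≤ δ := by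
    intro u
    have := bb_bound hn0 hn1 hξ h0 h1 u
    rw [abs_mul, abs_of_nonneg (by positivity), hδ]
    nlinarith
  have hδ0 : 0 ≤ δ := by rw [hδ]; positivity
  have h := gen_est (g := fun u => (u : V2) 0) (X := fun u => 4 * ε * bb n0 n1 ξ t u)
    (X' := fun _ => 0) (coord2_cont 0) (continuous_const.mul (bb_cont n0 n1 ξ t))
    continuous_const hδ2 hX (fun _ => by simpa using hδ0) sph_abs0 (D := δ)
    (fun u => by simpa using hX u)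
  simp only [w_zero, mul_one, sub_zero, circ_zero0] at h
  have e : ∫ u : sphere (0 : V2) 1, (u : V2) 0 * (4 * ε * bb n0 n1 ξ t u) ∂σ2 =
      4 * ε * (-n1 * CC ca t + n0 * CC cb t) := by
    rw [← int_y0_bb n0 n1 ξ t, ← integral_const_mul]
    refine integral_congr_ae (Filter.Eventually.of_forall fun u => ?_)
    simp only []
    ring
  rw [e] at h
  have e2 : EE ε n0 n1 ξ t - 3 * ε * (-n1 * CC ca t + n0 * CC cb t) =
    (∫ u : sphere (0 : V2) 1, (u : V2) 0 * w (4 * ε * bb n0 n1 ξ t u) ∂σ2) -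
      3 / 4 * (4 * ε * (-n1 * CC ca t + n0 * CC cb t)) := by unfold EE; ring
  rw [e2]
  exact h

theorem TT_est {ε n0 n1 ξ t δ : ℝ} (hε : 0 ≤ ε) (hδ : δ = 672000 * ε) (hδ2 : δ ≤ 1 / 2)
    (hn0 : |n0| ≤ 1) (hn1 : |n1| ≤ 1) (hξ : |ξ| ≤ 1) (h0 : 0 ≤ t) (h1 : t ≤ 1) :
    |2 * TT ε n0 n1 ξ t - 6 * ε * ξ * (n0 * QQ ca t + n1 * QQ cb t)|
      ≤ 2 * δ * (δ * |ξ|) * S := by
  have hX : ∀ u : sphere (0 : V2) 1, |4 * ε * bb n0 n1 ξ t u| ≤ δ := by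
    intro u
    have := bb_bound hn0 hn1 hξ h0 h1 u
    rw [abs_mul, abs_of_nonneg (by positivity), hδ]
    nlinarith
  have ha := P_cont ca
  have hb := P_cont cb
  have hcX : Continuous (fun u : sphere (0 : V2) 1 => 4 * ε * bb n0 n1 ξ t u) :=
    continuous_const.mul (bb_cont n0 n1 ξ t)
  have hD : ∀ u : sphere (0 : V2) 1,
      4 * ε * bb n0 n1 ξ t u - 4 * ε * bb n0 n1 ξ t (sphMap R1 u) =
      8 * ε * ξ * ((u : V2) 1 * (n0 * P ca (t * (u : V2) 1 ^ 2) + n1 * P cb (t * (u : V2) 1 ^ 2))) := by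
    intro u
    simp only [bb, sphMap, R1_0, R1_1]
    rw [neg_sq]
    ring
  have h := gen_est (g := fun u => (u : V2) 1) (X := fun u => 4 * ε * bb n0 n1 ξ t u)
    (X' := fun u => 4 * ε * bb n0 n1 ξ t (sphMap R1 u)) (coord2_cont 1) hcX
    (hcX.comp (sphMap_cont R1)) hδ2 hX (fun u => hX (sphMap R1 u)) sph_abs1 (D := δ * |ξ|)
    (fun u => by
      rw [hD u, abs_mul, abs_mul, abs_mul, abs_mul, abs_of_nonneg hε, hδ]
      obtain ⟨hx0, hx1⟩ := t_sq_mem h0 h1 u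
      have k2 := comb_bound (p := n0) (q := n1) (a := 1) (b := 84000) hn0 hn1
        zero_le_one hx0 hx1 (by norm_num)
      have k4 := sph_abs1 u
      have k5 : |(u : V2) 1| * |n0 * P ca (t * (u : V2) 1 ^ 2) + n1 * P cb (t * (u : V2) 1 ^ 2)|
        ≤ 1 * 84000 := by gcongr
      have k6 : |(8 : ℝ)| = 8 := abs_of_pos (by norm_num)
      rw [k6]
      have : 8 * ε * |ξ| * (|(u : V2) 1| * |n0 * P ca (t * (u : V2) 1 ^ 2)
          + n1 * P cb (t * (u : V2) 1 ^ 2)|) ≤ 8 * ε * |ξ| * (1 * 84000) := by gcongr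
      linarith)
  have e1 : ∫ u : sphere (0 : V2) 1, (u : V2) 1 * w (4 * ε * bb n0 n1 ξ t (sphMap R1 u)) ∂σ2 =
      - TT ε n0 n1 ξ t := by
    have hc : Continuous (fun u : sphere (0 : V2) 1 => (u : V2) 1 * w (4 * ε * bb n0 n1 ξ t u)) :=
      (coord2_cont 1).mul (w_comp_cont hcX hδ2 hX)
    have := sphMap_integral R1 hc
    rw [TT, ← this, ← integral_neg]
    refine integral_congr_ae (Filter.Eventually.of_forall fun u => ?_)
    simp only [sphMap, R1_1]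
    ring
  have e2 : ∫ u : sphere (0 : V2) 1, (u : V2) 1 *
      (4 * ε * bb n0 n1 ξ t u - 4 * ε * bb n0 n1 ξ t (sphMap R1 u)) ∂σ2 =
      8 * ε * ξ * (n0 * QQ ca t + n1 * QQ cb t) := by
    rw [← circ_11, ← circ_11, ← integral_const_mul, ← integral_const_mul,
      ← integral_add (int2 (by fun_prop)) (int2 (by fun_prop)), ← integral_const_mul]
    refine integral_congr_ae (Filter.Eventually.of_forall fun u => ?_)
    simp only []
    rw [hD u]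
    ring
  rw [e1, e2] at h
  have e3 : 2 * TT ε n0 n1 ξ t - 6 * ε * ξ * (n0 * QQ ca t + n1 * QQ cb t) =
    (∫ u : sphere (0 : V2) 1, (u : V2) 1 * w (4 * ε * bb n0 n1 ξ t u) ∂σ2) - (- TT ε n0 n1 ξ t) -
      3 / 4 * (8 * ε * ξ * (n0 * QQ ca t + n1 * QQ cb t)) := by
    change _ = TT ε n0 n1 ξ t - (- TT ε n0 n1 ξ t) - _
    ring
  rw [e3]
  exact h

end Pool.Agent.Lib.MP_be4961_gt
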