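import Mathlib
import Pool.Agent.Lib.MP_be4961_gt.Main

open MeasureTheory Set Module Metric
open scoped Pointwise

namespace Pool.Agent.Lib.MP_be4961_gt

theorem X_bound {ε n0 n1 ξ t δ : ℝ} (hε : 0 ≤ ε) (hδ : δ = 672000 * ε)
    (hn0 : |n0| ≤ 1) (hn1 : |n1| ≤ 1) (hξ : |ξ| ≤ 1) (h0 : 0 ≤ t) (h1 : t ≤ 1)
    (u : sphere (0 : V2) 1) : |4 * ε * bb n0 n1 ξ t u| ≤ δ := by
  have := bb_bound hn0 hn1 hξ h0 h1 u
  rw [abs_mul, abs_of_nonneg (by positivity), hδ]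
  nlinarith

theorem EE_neg {ε n0 n1 t δ : ℝ} (hε : 0 ≤ ε) (hδ : δ = 672000 * ε) (hδ2 : δ ≤ 1 / 2)
    (hn0 : |n0| ≤ 1) (hn1 : |n1| ≤ 1) (h0 : 0 ≤ t) (h1 : t ≤ 1) :
    EE ε (-n0) (-n1) 0 t = - EE ε n0 n1 0 t := by
  have hX := X_bound (ξ := 0) hε hδ hn0 hn1 (by simp) h0 h1
  have hcX : Continuous (fun u : sphere (0 : V2) 1 => 4 * ε * bb n0 n1 0 t u) :=
    continuous_const.mul (bb_cont n0 n1 0 t)
  have hc : Continuous (fun u : sphere (0 : V2) 1 => (u : V2) 0 * w (4 * ε * bb n0 n1 0 t u)) :=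
    (coord2_cont 0).mul (w_comp_cont hcX hδ2 hX)
  have := sphMap_integral R0 hc
  rw [EE, EE, ← this, ← integral_neg]
  refine integral_congr_ae (Filter.Eventually.of_forall fun u => ?_)
  simp only [sphMap, R0_0, R0_1, bb]
  have e : (u : V2) 0 * (-(-n1) * P ca (t * (u : V2) 1 ^ 2) + -n0 * P cb (t * (u : V2) 1 ^ 2))
      = -(u : V2) 0 * (-n1 * P ca (t * (u : V2) 1 ^ 2) + n0 * P cb (t * (u : V2) 1 ^ 2)) := by ring
  rw [e, zero_mul, zero_mul]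
  ring

theorem TT_zero {ε n0 n1 t δ : ℝ} (hε : 0 ≤ ε) (hδ : δ = 672000 * ε) (hδ2 : δ ≤ 1 / 2)
    (hn0 : |n0| ≤ 1) (hn1 : |n1| ≤ 1) (h0 : 0 ≤ t) (h1 : t ≤ 1) :
    TT ε n0 n1 0 t = 0 := by
  have h := TT_est (ξ := 0) hε hδ hδ2 hn0 hn1 (by simp) h0 h1
  simp only [mul_zero, zero_mul, sub_zero, abs_zero] at h
  have h2 := abs_nonpos_iff.1 h
  linarith

theorem EE_diff {ε n0 n1 m0 m1 δ d : ℝ} (hε : 0 ≤ ε) (hδ : δ = 672000 * ε) (hδ2 : δ ≤ 1 / 2)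
    (hn0 : |n0| ≤ 1) (hn1 : |n1| ≤ 1) (hm0 : |m0| ≤ 1) (hm1 : |m1| ≤ 1)
    (hd0 : |n0 - m0| ≤ d) (hd1 : |n1 - m1| ≤ d) :
    |EE ε n0 n1 0 1 - EE ε m0 m1 0 1 - 3 * ε * (-(n1 - m1) * CC ca 1 + (n0 - m0) * CC cb 1)|
      ≤ 2 * δ * (δ * d / 2) * S := by
  have hX := X_bound (ξ := 0) (t := 1) hε hδ hn0 hn1 (by simp) zero_le_one le_rfl
  have hX' := X_bound (ξ := 0) (t := 1) hε hδ hm0 hm1 (by simp) zero_le_one le_rfl
  have hcX : Continuous (fun u : sphere (0 : V2) 1 => 4 * ε * bb n0 n1 0 1 u) :=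
    continuous_const.mul (bb_cont n0 n1 0 1)
  have hcX' : Continuous (fun u : sphere (0 : V2) 1 => 4 * ε * bb m0 m1 0 1 u) :=
    continuous_const.mul (bb_cont m0 m1 0 1)
  have hd : 0 ≤ d := (abs_nonneg _).trans hd0
  have hD : ∀ u : sphere (0 : V2) 1,
      4 * ε * bb n0 n1 0 1 u - 4 * ε * bb m0 m1 0 1 u =
      4 * ε * ((u : V2) 0 * (-(n1 - m1) * P ca (1 * (u : V2) 1 ^ 2) +
        (n0 - m0) * P cb (1 * (u : V2) 1 ^ 2))) := by
    intro u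
    simp only [bb]
    ring
  have h := gen_est (g := fun u => (u : V2) 0) (X := fun u => 4 * ε * bb n0 n1 0 1 u)
    (X' := fun u => 4 * ε * bb m0 m1 0 1 u) (coord2_cont 0) hcX
    hcX' hδ2 hX hX' sph_abs0 (D := δ * d / 2)
    (fun u => by
      rw [hD u, abs_mul, abs_mul, abs_mul, abs_of_nonneg hε, hδ]
      obtain ⟨hx0, hx1⟩ := t_sq_mem (zero_le_one) (le_refl 1) u
      have k2 := comb_bound (p := -(n1 - m1)) (q := n0 - m0) (a := d) (b := 84000 * d)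
        (by rwa [abs_neg]) hd0 hd hx0 hx1 rfl
      have k4 := sph_abs0 u
      have k5 : |(u : V2) 0| * |(-(n1 - m1)) * P ca (1 * (u : V2) 1 ^ 2) +
          (n0 - m0) * P cb (1 * (u : V2) 1 ^ 2)| ≤ 1 * (84000 * d) := by gcongr
      have k6 : |(4 : ℝ)| = 4 := abs_of_pos (by norm_num)
      rw [k6]
      have : 4 * ε * (|(u : V2) 0| * |(-(n1 - m1)) * P ca (1 * (u : V2) 1 ^ 2) +
          (n0 - m0) * P cb (1 * (u : V2) 1 ^ 2)|) ≤ 4 * ε * (1 * (84000 * d)) := by gcongr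
      linarith)
  have e2 : ∫ u : sphere (0 : V2) 1, (u : V2) 0 *
      (4 * ε * bb n0 n1 0 1 u - 4 * ε * bb m0 m1 0 1 u) ∂σ2 =
      4 * ε * (-(n1 - m1) * CC ca 1 + (n0 - m0) * CC cb 1) := by
    have ha := int_y0_bb n0 n1 0 1
    have hb := int_y0_bb m0 m1 0 1
    have ca' : Continuous (fun u : sphere (0 : V2) 1 => (u : V2) 0 * bb n0 n1 0 1 u) :=
      (coord2_cont 0).mul (bb_cont _ _ _ _)
    have cb' : Continuous (fun u : sphere (0 : V2) 1 => (u : V2) 0 * bb m0 m1 0 1 u) :=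
      (coord2_cont 0).mul (bb_cont _ _ _ _)
    have : ∫ u : sphere (0 : V2) 1, (u : V2) 0 *
      (4 * ε * bb n0 n1 0 1 u - 4 * ε * bb m0 m1 0 1 u) ∂σ2 =
      4 * ε * ((∫ u : sphere (0 : V2) 1, (u : V2) 0 * bb n0 n1 0 1 u ∂σ2) -
        ∫ u : sphere (0 : V2) 1, (u : V2) 0 * bb m0 m1 0 1 u ∂σ2) := by
      rw [← integral_sub (int2 ca') (int2 cb'), ← integral_const_mul]
      refine integral_congr_ae (Filter.Eventually.of_forall fun u => ?_)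
      simp only []
      ring
    rw [this, ha, hb]
    ring
  rw [e2] at h
  have e3 : EE ε n0 n1 0 1 - EE ε m0 m1 0 1 - 3 * ε * (-(n1 - m1) * CC ca 1 + (n0 - m0) * CC cb 1) =
    (∫ u : sphere (0 : V2) 1, (u : V2) 0 * w (4 * ε * bb n0 n1 0 1 u) ∂σ2) -
    (∫ u : sphere (0 : V2) 1, (u : V2) 0 * w (4 * ε * bb m0 m1 0 1 u) ∂σ2) -
      3 / 4 * (4 * ε * (-(n1 - m1) * CC ca 1 + (n0 - m0) * CC cb 1)) := by
    change EE ε n0 n1 0 1 - EE ε m0 m1 0 1 - _ = EE ε n0 n1 0 1 - EE ε m0 m1 0 1 - _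
    ring
  rw [e3]
  exact h

theorem CC_bound {c : ℕ → ℝ} (hc : ∑ k ∈ Finset.range 7, |c k| ≤ 80000) {t : ℝ} (h0 : 0 ≤ t)
    (h1 : t ≤ 1) : |CC c t| ≤ 80000 * S := by
  rw [← circ_00]
  refine abs_integral_le fun u => ?_
  obtain ⟨hx0, hx1⟩ := t_sq_mem h0 h1 u
  have h2 := (P_bound c hx0 hx1).trans hc
  have h3 := sph_abs0 u
  rw [abs_mul, abs_pow]
  calc |(u : V2) 0| ^ 2 * |P c (t * (u : V2) 1 ^ 2)| ≤ 1 ^ 2 * 80000 := by gcongr
    _ = 80000 := by norm_num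

theorem QQ_bound {c : ℕ → ℝ} (hc : ∑ k ∈ Finset.range 7, |c k| ≤ 80000) {t : ℝ} (h0 : 0 ≤ t)
    (h1 : t ≤ 1) : |QQ c t| ≤ 80000 * S := by
  rw [← circ_11]
  refine abs_integral_le fun u => ?_
  obtain ⟨hx0, hx1⟩ := t_sq_mem h0 h1 u
  have h2 := (P_bound c hx0 hx1).trans hc
  have h3 := sph_abs1 u
  rw [abs_mul, abs_pow]
  calc |(u : V2) 1| ^ 2 * |P c (t * (u : V2) 1 ^ 2)| ≤ 1 ^ 2 * 80000 := by gcongr
    _ = 80000 := by norm_num

theorem abs_le_one_of_sq {a b : ℝ} (h : a ^ 2 + b ^ 2 = 1) : |a| ≤ 1 := by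
  rw [← sq_le_one_iff_abs_le_one]; nlinarith [sq_nonneg b]

/-- a lower bound for the spiral -/
theorem spiral_lower {t : ℝ} (h0 : 0 ≤ t) (h1 : t ≤ 1) :
    (c2 0) ^ 2 / 1024 ^ 2 ≤ CC ca t * QQ ca t + CC cb t * QQ cb t := by
  rw [spiral_eq]
  have := pp_pos t h0 h1
  have h : 0 ≤ (c2 0) ^ 2 / 1024 ^ 2 := by positivity
  nlinarith

theorem part_A {ε δ : ℝ} (hε : 0 < ε) (hδ : δ = 672000 * ε) (hδ2 : δ ≤ 1 / 2)
    (hs : 1344000 * δ * S * (80000 * S) < (c2 0) ^ 2 / 1024 ^ 2)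
    {n0 n1 ξ t : ℝ} (hn : n0 ^ 2 + n1 ^ 2 = 1) (hξ : ξ ^ 2 + t = 1) (h0 : 0 ≤ t)
    (hE : EE ε n0 n1 ξ t = 0) (hT : TT ε n0 n1 ξ t = 0) : ξ = 0 := by
  by_contra hne
  have ha0 := abs_le_one_of_sq hn
  have ha1 := abs_le_one_of_sq ((add_comm _ _).trans hn)
  have h1 : t ≤ 1 := by nlinarith [sq_nonneg ξ]
  have haξ : |ξ| ≤ 1 := by rw [← sq_le_one_iff_abs_le_one]; linarith
  have k1 := EE_est hε.le hδ hδ2 ha0 ha1 haξ h0 h1
  have k2 := TT_est hε.le hδ hδ2 ha0 ha1 haξ h0 h1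
  rw [hE, zero_sub, abs_neg, abs_mul, abs_mul, abs_of_pos hε, abs_of_pos (by norm_num : (0:ℝ) < 3)]
    at k1
  rw [hT, mul_zero, zero_sub, abs_neg, abs_mul, abs_mul, abs_mul, abs_of_pos hε,
    abs_of_pos (by norm_num : (0:ℝ) < 6)] at k2
  have hξpos : 0 < |ξ| := abs_pos.2 hne
  set U := -n1 * CC ca t + n0 * CC cb t with hU
  set V := n0 * QQ ca t + n1 * QQ cb t with hV
  have hS := S_nonneg
  have hδ0 : 0 < δ := by rw [hδ]; positivity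
  have k1' : |U| ≤ 448000 * δ * S := by
    have : 3 * ε * |U| ≤ 3 * ε * (448000 * δ * S) := by
      refine k1.trans (le_of_eq ?_)
      rw [hδ]; ring
    exact le_of_mul_le_mul_left this (by positivity)
  have k2' : |V| ≤ 224000 * δ * S := by
    have : (6 * ε * |ξ|) * |V| ≤ (6 * ε * |ξ|) * (224000 * δ * S) := by
      refine k2.trans (le_of_eq ?_)
      rw [hδ]; ring
    exact le_of_mul_le_mul_left this (by positivity)
  have hca : ∑ k ∈ Finset.range 7, |ca k| ≤ 80000 := ca_sum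
  have hcb : ∑ k ∈ Finset.range 7, |cb k| ≤ 80000 := cb_sum.trans (by norm_num)
  have b1 := CC_bound hca h0 h1
  have b2 := CC_bound hcb h0 h1
  have b3 := QQ_bound hca h0 h1
  have b4 := QQ_bound hcb h0 h1
  have key := spiral_lower h0 h1
  have e : CC ca t * QQ ca t + CC cb t * QQ cb t =
      U * (-n1 * QQ ca t + n0 * QQ cb t) + (n0 * CC ca t + n1 * CC cb t) * V := by
    rw [hU, hV]
    linear_combination (-(CC ca t * QQ ca t + CC cb t * QQ cb t)) * hn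
  have c1 : |(-n1) * QQ ca t + n0 * QQ cb t| ≤ 2 * (80000 * S) := by
    refine (abs_add_le _ _).trans ?_
    rw [abs_mul, abs_mul, abs_neg]
    have : |n1| * |QQ ca t| ≤ 1 * (80000 * S) := by gcongr
    have : |n0| * |QQ cb t| ≤ 1 * (80000 * S) := by gcongr
    linarith
  have c2' : |n0 * CC ca t + n1 * CC cb t| ≤ 2 * (80000 * S) := by
    refine (abs_add_le _ _).trans ?_
    rw [abs_mul, abs_mul]
    have : |n0| * |CC ca t| ≤ 1 * (80000 * S) := by gcongr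
    have : |n1| * |CC cb t| ≤ 1 * (80000 * S) := by gcongr
    linarith
  have d1 : U * (-n1 * QQ ca t + n0 * QQ cb t) ≤ (448000 * δ * S) * (2 * (80000 * S)) := by
    refine (le_abs_self _).trans ?_
    rw [abs_mul]
    gcongr
  have d2 : (n0 * CC ca t + n1 * CC cb t) * V ≤ (2 * (80000 * S)) * (224000 * δ * S) := by
    refine (le_abs_self _).trans ?_
    rw [abs_mul]
    gcongr
  rw [e] at key
  have : (448000 * δ * S) * (2 * (80000 * S)) + (2 * (80000 * S)) * (224000 * δ * S) =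
    1344000 * δ * S * (80000 * S) := by ring
  linarith

end Pool.Agent.Lib.MP_be4961_gt
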