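import Mathlib
import Pool.Agent.Lib.MP_be4961_gt.Final2

open MeasureTheory Set Module Metric
open scoped Pointwise

namespace Pool.Agent.Lib.MP_be4961_gt

theorem abs_sub_le_sqrt (a b : ℝ) : |a| ≤ Real.sqrt (a ^ 2 + b ^ 2) := by
  rw [← Real.sqrt_sq_eq_abs]
  exact Real.sqrt_le_sqrt (by nlinarith [sq_nonneg b])

theorem part_B_aux {ε δ : ℝ} (hε : 0 < ε) (hδ : δ = 672000 * ε) (hδ2 : δ ≤ 1 / 2)
    {n0 n1 m0 m1 : ℝ} (hn : n0 ^ 2 + n1 ^ 2 = 1) (hm : m0 ^ 2 + m1 ^ 2 = 1)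
    (hE : EE ε n0 n1 0 1 = 0) (hE' : EE ε m0 m1 0 1 = 0) :
    (-(n1 - m1) * CC ca 1 + (n0 - m0) * CC cb 1) ^ 2 ≤
      (224000 * δ * S) ^ 2 * ((n0 - m0) ^ 2 + (n1 - m1) ^ 2) := by
  have ha0 := abs_le_one_of_sq hn
  have ha1 := abs_le_one_of_sq ((add_comm _ _).trans hn)
  have hb0 := abs_le_one_of_sq hm
  have hb1 := abs_le_one_of_sq ((add_comm _ _).trans hm)
  set d := Real.sqrt ((n0 - m0) ^ 2 + (n1 - m1) ^ 2) with hd
  have hd0 : |n0 - m0| ≤ d := abs_sub_le_sqrt _ _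
  have hd1 : |n1 - m1| ≤ d := by
    rw [hd, add_comm]; exact abs_sub_le_sqrt _ _
  have h := EE_diff hε.le hδ hδ2 ha0 ha1 hb0 hb1 hd0 hd1
  rw [hE, hE', sub_zero, zero_sub, abs_neg, abs_mul, abs_mul, abs_of_pos hε,
    abs_of_pos (by norm_num : (0:ℝ) < 3)] at h
  have hdd : 0 ≤ d := Real.sqrt_nonneg _
  have hS := S_nonneg
  have hδ0 : 0 < δ := by rw [hδ]; positivity
  have h2 : |(-(n1 - m1)) * CC ca 1 + (n0 - m0) * CC cb 1| ≤ (224000 * δ * S) * d := by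
    have : 3 * ε * |(-(n1 - m1)) * CC ca 1 + (n0 - m0) * CC cb 1| ≤
        3 * ε * ((224000 * δ * S) * d) := by
      refine h.trans (le_of_eq ?_)
      rw [hδ]; ring
    exact le_of_mul_le_mul_left this (by positivity)
  have hsq : d ^ 2 = (n0 - m0) ^ 2 + (n1 - m1) ^ 2 := Real.sq_sqrt (by positivity)
  rw [← hsq, ← mul_pow, ← sq_abs (-(n1 - m1) * CC ca 1 + (n0 - m0) * CC cb 1)]
  exact pow_le_pow_left₀ (abs_nonneg _) h2 2

theorem part_B {ε δ : ℝ} (hε : 0 < ε) (hδ : δ = 672000 * ε) (hδ2 : δ ≤ 1 / 2)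
    (hs : 1344000 * δ * S * (80000 * S) < (c2 0) ^ 2 / 1024 ^ 2)
    {n0 n1 m0 m1 : ℝ} (hn : n0 ^ 2 + n1 ^ 2 = 1) (hm : m0 ^ 2 + m1 ^ 2 = 1)
    (hE : EE ε n0 n1 0 1 = 0) (hE' : EE ε m0 m1 0 1 = 0) :
    (m0 = n0 ∧ m1 = n1) ∨ (m0 = -n0 ∧ m1 = -n1) := by
  have hb0 := abs_le_one_of_sq hm
  have hb1 := abs_le_one_of_sq ((add_comm _ _).trans hm)
  have hE'' : EE ε (-m0) (-m1) 0 1 = 0 := by
    rw [EE_neg hε.le hδ hδ2 hb0 hb1 zero_le_one le_rfl, hE', neg_zero]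
  have h1 := part_B_aux hε hδ hδ2 hn hm hE hE'
  have h2 := part_B_aux hε hδ hδ2 hn (by rwa [neg_sq, neg_sq] : (-m0) ^ 2 + (-m1) ^ 2 = 1) hE hE''
  simp only [sub_neg_eq_add] at h2
  set a := CC ca 1 with ha
  set b := CC cb 1 with hb
  set η := 224000 * δ * S with hη
  set p := (n0 - m0) ^ 2 + (n1 - m1) ^ 2 with hp
  set q := (n0 + m0) ^ 2 + (n1 + m1) ^ 2 with hq
  have hp0 : 0 ≤ p := by positivity
  have hq0 : 0 ≤ q := by positivity
  have hid : (a ^ 2 + b ^ 2) * (p * q) =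
      (-(n1 - m1) * a + (n0 - m0) * b) ^ 2 * q + (-(n1 + m1) * a + (n0 + m0) * b) ^ 2 * p := by
    have horth : (n0 - m0) * (n0 + m0) + (n1 - m1) * (n1 + m1) = 0 := by
      linear_combination hn - hm
    rw [hp, hq]
    -- in the plane, for orthogonal vectors
    have key : ∀ x0 x1 y0 y1 a b : ℝ, x0 * y0 + x1 * y1 = 0 →
      (a ^ 2 + b ^ 2) * ((x0 ^ 2 + x1 ^ 2) * (y0 ^ 2 + y1 ^ 2)) =
        (-x1 * a + x0 * b) ^ 2 * (y0 ^ 2 + y1 ^ 2) + (-y1 * a + y0 * b) ^ 2 * (x0 ^ 2 + x1 ^ 2) := by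
      intro x0 x1 y0 y1 a b h
      have hk : (a ^ 2 + b ^ 2) * ((x0 ^ 2 + x1 ^ 2) * (y0 ^ 2 + y1 ^ 2)) -
        ((-x1 * a + x0 * b) ^ 2 * (y0 ^ 2 + y1 ^ 2) + (-y1 * a + y0 * b) ^ 2 * (x0 ^ 2 + x1 ^ 2)) =
        (x0 * y0 + x1 * y1) * ((a ^ 2 - b ^ 2) * (x0 * y0 - x1 * y1)
          + 2 * a * b * (x0 * y1 + x1 * y0)) := by ring
      rw [h, zero_mul] at hk
      linarith
    exact key _ _ _ _ _ _ horth
  have hineq : (a ^ 2 + b ^ 2) * (p * q) ≤ 2 * η ^ 2 * (p * q) := by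
    rw [hid]
    have e1 : (-(n1 - m1) * a + (n0 - m0) * b) ^ 2 * q ≤ (η ^ 2 * p) * q := by gcongr
    have e2 : (-(n1 + m1) * a + (n0 + m0) * b) ^ 2 * p ≤ (η ^ 2 * q) * p := by gcongr
    linarith
  have hca : ∑ k ∈ Finset.range 7, |ca k| ≤ 80000 := ca_sum
  have hcb : ∑ k ∈ Finset.range 7, |cb k| ≤ 80000 := cb_sum.trans (by norm_num)
  have b3 := QQ_bound hca (t := 1) zero_le_one le_rfl
  have b4 := QQ_bound hcb (t := 1) zero_le_one le_rfl
  have key := spiral_lower (t := 1) zero_le_one le_rfl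
  rw [← ha, ← hb] at key
  have hS := S_nonneg
  have hδ0 : 0 < δ := by rw [hδ]; positivity
  have hη0 : 0 ≤ η := by positivity
  -- `a² + b² > 2 η²`
  have hlt : 2 * η ^ 2 < a ^ 2 + b ^ 2 := by
    by_contra hcon
    push Not at hcon
    have e4 : (2 * η) ^ 2 = 4 * η ^ 2 := by ring
    have e5 := sq_nonneg a
    have e6 := sq_nonneg b
    have e7 := sq_nonneg η
    have h3 : |a| ≤ 2 * η := by
      apply abs_le_of_sq_le_sq _ (by positivity)
      rw [e4]; linarith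
    have h4 : |b| ≤ 2 * η := by
      apply abs_le_of_sq_le_sq _ (by positivity)
      rw [e4]; linarith
    have h5 : a * QQ ca 1 ≤ 2 * η * (80000 * S) := by
      refine (le_abs_self _).trans ?_
      rw [abs_mul]; gcongr
    have h6 : b * QQ cb 1 ≤ 2 * η * (80000 * S) := by
      refine (le_abs_self _).trans ?_
      rw [abs_mul]; gcongr
    have h7 : 2 * η * (80000 * S) + 2 * η * (80000 * S) ≤ 1344000 * δ * S * (80000 * S) := by
      rw [hη]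
      have h8 : 0 ≤ δ * S * (80000 * S) := by positivity
      have h9 : 2 * (224000 * δ * S) * (80000 * S) + 2 * (224000 * δ * S) * (80000 * S) =
        896000 * (δ * S * (80000 * S)) := by ring
      have h10 : 1344000 * δ * S * (80000 * S) = 1344000 * (δ * S * (80000 * S)) := by ring
      rw [h9, h10]
      linarith
    linarith
  have hpq : p * q = 0 := by
    have h0 : 0 ≤ p * q := mul_nonneg hp0 hq0
    by_contra hne
    have h11 : 0 < p * q := lt_of_le_of_ne h0 (Ne.symm hne)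
    have h12 := mul_lt_mul_of_pos_right hlt h11
    linarith
  rcases mul_eq_zero.1 hpq with h | h
  · left
    have e5 := sq_nonneg (n0 - m0)
    have e6 := sq_nonneg (n1 - m1)
    rw [hp] at h
    have e1 : (n0 - m0) ^ 2 = 0 := by linarith
    have e2 : (n1 - m1) ^ 2 = 0 := by linarith
    have e3 := pow_eq_zero_iff (two_ne_zero) |>.1 e1
    have e4 := pow_eq_zero_iff (two_ne_zero) |>.1 e2
    constructor <;> linarith
  · right
    have e5 := sq_nonneg (n0 + m0)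
    have e6 := sq_nonneg (n1 + m1)
    rw [hq] at h
    have e1 : (n0 + m0) ^ 2 = 0 := by linarith
    have e2 : (n1 + m1) ^ 2 = 0 := by linarith
    have e3 := pow_eq_zero_iff (two_ne_zero) |>.1 e1
    have e4 := pow_eq_zero_iff (two_ne_zero) |>.1 e2
    constructor <;> linarith

theorem part_C {ε δ : ℝ} (hε : 0 < ε) (hδ : δ = 672000 * ε) (hδ2 : δ ≤ 1 / 2) :
    ∃ n0 n1 : ℝ, n0 ^ 2 + n1 ^ 2 = 1 ∧ EE ε n0 n1 0 1 = 0 := by
  have hcont : Continuous (fun φ : ℝ => EE ε (Real.cos φ) (Real.sin φ) 0 1) := by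
    have hP := P_cont ca
    have hQ := P_cont cb
    have hj : Continuous (Function.uncurry (fun (φ : ℝ) (u : sphere (0 : V2) 1) =>
        (u : V2) 0 * w (4 * ε * bb (Real.cos φ) (Real.sin φ) 0 1 u))) := by
      unfold w bb Function.uncurry
      refine Continuous.mul (by fun_prop) ?_
      refine Continuous.rpow_const (by fun_prop) fun y => Or.inl ?_
      have := X_bound (ξ := 0) (t := 1) hε.le hδ (Real.abs_cos_le_one y.1)
        (Real.abs_sin_le_one y.1) (by simp) zero_le_one le_rfl y.2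
      have h2 := abs_le.1 this
      unfold bb at h2
      linarith [h2.1]
    have := continuous_parametric_integral_of_continuous (μ := σ2) hj isCompact_univ
    simpa [EE] using this
  have hπ : EE ε (Real.cos Real.pi) (Real.sin Real.pi) 0 1 = -EE ε (Real.cos 0) (Real.sin 0) 0 1 := by
    rw [← EE_neg hε.le hδ hδ2 (Real.abs_cos_le_one 0) (Real.abs_sin_le_one 0) zero_le_one le_rfl]
    simp
  have hz : (0 : ℝ) ∈ uIcc (EE ε (Real.cos 0) (Real.sin 0) 0 1)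
      (EE ε (Real.cos Real.pi) (Real.sin Real.pi) 0 1) := by
    rw [hπ, mem_uIcc]
    rcases le_total 0 (EE ε (Real.cos 0) (Real.sin 0) 0 1) with h | h
    · right; constructor <;> linarith
    · left; constructor <;> linarith
  obtain ⟨φ, -, hφ⟩ := intermediate_value_uIcc hcont.continuousOn hz
  exact ⟨Real.cos φ, Real.sin φ, Real.cos_sq_add_sin_sq φ, hφ⟩

theorem main_analysis : ∃ ε0 : ℝ, 0 < ε0 ∧ ∀ ε, 0 < ε → ε ≤ ε0 →
    (∀ n0 n1 ξ t : ℝ, n0 ^ 2 + n1 ^ 2 = 1 → ξ ^ 2 + t = 1 → 0 ≤ t →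
      EE ε n0 n1 ξ t = 0 → TT ε n0 n1 ξ t = 0 → ξ = 0) ∧
    (∀ n0 n1 m0 m1 : ℝ, n0 ^ 2 + n1 ^ 2 = 1 → m0 ^ 2 + m1 ^ 2 = 1 →
      EE ε n0 n1 0 1 = 0 → EE ε m0 m1 0 1 = 0 →
      (m0 = n0 ∧ m1 = n1) ∨ (m0 = -n0 ∧ m1 = -n1)) ∧
    (∃ n0 n1 : ℝ, n0 ^ 2 + n1 ^ 2 = 1 ∧ EE ε n0 n1 0 1 = 0 ∧ TT ε n0 n1 0 1 = 0) := by
  set κ := (c2 0) ^ 2 / 1024 ^ 2 with hκ
  have hκ0 : 0 < κ := by have := c2_pos 0; positivity
  have hS := S_nonneg
  set B := 1344000 * S * (80000 * S) with hB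
  have hB0 : 0 ≤ B := by positivity
  set δ0 := min (1 / 2) (κ / (2 * (B + 1))) with hδ0
  have hδpos : 0 < δ0 := lt_min (by norm_num) (by positivity)
  refine ⟨δ0 / 672000, by positivity, fun ε hε hle => ?_⟩
  have hδ : (672000 * ε) ≤ δ0 := by
    rw [le_div_iff₀ (by norm_num)] at hle; linarith
  have hδ2 : 672000 * ε ≤ 1 / 2 := hδ.trans (min_le_left _ _)
  have hs : 1344000 * (672000 * ε) * S * (80000 * S) < (c2 0) ^ 2 / 1024 ^ 2 := by
    have h1 : 672000 * ε ≤ κ / (2 * (B + 1)) := hδ.trans (min_le_right _ _)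
    have h2 : B * (672000 * ε) ≤ B * (κ / (2 * (B + 1))) := mul_le_mul_of_nonneg_left h1 hB0
    have h3 : B * (κ / (2 * (B + 1))) < κ := by
      rw [mul_div_assoc', div_lt_iff₀ (by positivity)]
      nlinarith
    calc 1344000 * (672000 * ε) * S * (80000 * S) = B * (672000 * ε) := by rw [hB]; ring
      _ < κ := lt_of_le_of_lt h2 h3
  refine ⟨?_, ?_, ?_⟩
  · intro n0 n1 ξ t hn hξ h0 hE hT
    exact part_A hε rfl hδ2 hs hn hξ h0 hE hT
  · intro n0 n1 m0 m1 hn hm hE hE'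
    exact part_B hε rfl hδ2 hs hn hm hE hE'
  · obtain ⟨n0, n1, hn, hE⟩ := part_C hε rfl hδ2
    refine ⟨n0, n1, hn, hE, ?_⟩
    exact TT_zero hε.le rfl hδ2 (abs_le_one_of_sq hn) (abs_le_one_of_sq ((add_comm _ _).trans hn))
      zero_le_one le_rfl

end Pool.Agent.Lib.MP_be4961_gt
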