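import Mathlib
import Pool.Agent.Lib.MP_be4961_gt.Final3
import Pool.Agent.Lib.MP_be4961_gt.Body

open MeasureTheory Set Module Metric
open scoped InnerProductSpace

namespace Pool.Agent.Lib.MP_be4961_gt

/-- the odd perturbation on space -/
noncomputable def beta (p : V3) : ℝ := p 0 * P ca (p 2 ^ 2) + p 1 * P cb (p 2 ^ 2)

theorem beta_contDiff : ContDiff ℝ 2 beta := by
  unfold beta P
  fun_prop

/-- frames: `n` horizontal unit, `ξ² + r² = 1` -/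
noncomputable def frame (n0 n1 ξ r : ℝ) (hn : n0 ^ 2 + n1 ^ 2 = 1) (hξ : ξ ^ 2 + r ^ 2 = 1) :
    V2 →ₗᵢ[ℝ] V3 where
  toFun y := !₂[-n1 * y 0 + ξ * n0 * y 1, n0 * y 0 + ξ * n1 * y 1, r * y 1]
  map_add' x y := by
    ext i; fin_cases i <;> simp <;> ring
  map_smul' c x := by
    ext i; fin_cases i <;> simp <;> ring
  norm_map' y := by
    have h : ‖(!₂[-n1 * y 0 + ξ * n0 * y 1, n0 * y 0 + ξ * n1 * y 1, r * y 1] : V3)‖ ^ 2
        = ‖y‖ ^ 2 := by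
      rw [EuclideanSpace.real_norm_sq_eq, EuclideanSpace.real_norm_sq_eq, Fin.sum_univ_three,
        Fin.sum_univ_two]
      simp
      linear_combination (y 0 ^ 2 + ξ ^ 2 * y 1 ^ 2) * hn + (y 1 ^ 2) * hξ
    exact (sq_eq_sq₀ (norm_nonneg _) (norm_nonneg _)).1 h

theorem frame_0 (n0 n1 ξ r : ℝ) (hn : n0 ^ 2 + n1 ^ 2 = 1) (hξ : ξ ^ 2 + r ^ 2 = 1) (y : V2) :
    frame n0 n1 ξ r hn hξ y 0 = -n1 * y 0 + ξ * n0 * y 1 := rfl
theorem frame_1 (n0 n1 ξ r : ℝ) (hn : n0 ^ 2 + n1 ^ 2 = 1) (hξ : ξ ^ 2 + r ^ 2 = 1) (y : V2) :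
    frame n0 n1 ξ r hn hξ y 1 = n0 * y 0 + ξ * n1 * y 1 := rfl
theorem frame_2 (n0 n1 ξ r : ℝ) (hn : n0 ^ 2 + n1 ^ 2 = 1) (hξ : ξ ^ 2 + r ^ 2 = 1) (y : V2) :
    frame n0 n1 ξ r hn hξ y 2 = r * y 1 := rfl

theorem beta_frame (n0 n1 ξ r : ℝ) (hn : n0 ^ 2 + n1 ^ 2 = 1) (hξ : ξ ^ 2 + r ^ 2 = 1) (y : V2) :
    beta (frame n0 n1 ξ r hn hξ y) = bb n0 n1 ξ (r ^ 2) y := by
  unfold beta bb
  rw [frame_0, frame_1, frame_2, mul_pow]
  ring

theorem rho_cube {ε : ℝ} {u : V3} (h : 1 / 2 ≤ 1 + 4 * ε * beta u) :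
    rho beta ε u ^ 3 = w (4 * ε * beta u) := by
  rw [rho, w, ← Real.rpow_natCast, ← Real.rpow_mul (by linarith)]
  norm_num

theorem section_int {ε : ℝ} (hc : IsCompact (KK beta ε))
    (h4 : ∀ u : V3, ‖u‖ = 1 → 1 / 2 ≤ 1 + 4 * ε * beta u)
    (h0 : ∀ u : V3, ‖u‖ = 1 → 0 ≤ rho beta ε u) (h2 : ∀ u : V3, ‖u‖ = 1 → rho beta ε u ≤ 2)
    (n0 n1 ξ r : ℝ) (hn : n0 ^ 2 + n1 ^ 2 = 1) (hξ : ξ ^ 2 + r ^ 2 = 1) (j : Fin 2) :
    ∫ y in frame n0 n1 ξ r hn hξ ⁻¹' KK beta ε, y j =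
      1 / 3 * ∫ u : sphere (0 : V2) 1, (u : V2) j * w (4 * ε * bb n0 n1 ξ (r ^ 2) u) ∂σ2 := by
  set L := frame n0 n1 ξ r hn hξ with hL
  have hK : L ⁻¹' KK beta ε = {y : V2 | ‖y‖ ≤ (fun y => rho beta ε (L y)) (‖y‖⁻¹ • y)} := by
    ext y
    simp only [mem_preimage, KK, mem_ofPred_eq, LinearIsometry.norm_map, map_smul]
  have hm : MeasurableSet (L ⁻¹' KK beta ε) :=
    (hc.isClosed.preimage L.continuous).measurableSet
  have hLn : ∀ u : V2, ‖u‖ = 1 → ‖L u‖ = 1 := fun u hu => by rw [L.norm_map, hu]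
  have := star_moment (volume : Measure V2) (ρ := fun y => rho beta ε (L y)) hK hm
    (fun u hu => h0 _ (hLn u hu)) (R := 2) (by norm_num) (fun u hu => h2 _ (hLn u hu))
    (EuclideanSpace.proj j)
  simp only [PiLp.proj_apply, finrank_euclideanSpace, Fintype.card_fin] at this
  rw [this, ← integral_const_mul]
  refine integral_congr_ae (Filter.Eventually.of_forall fun u => ?_)
  have hu : ‖(u : V2)‖ = 1 := by simp
  simp only []
  rw [← beta_frame n0 n1 ξ r hn hξ, ← hL, ← rho_cube (h4 _ (hLn u hu))]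
  norm_num
  ring

theorem sph3_zero (i : Fin 3) : ∫ u : sphere (0 : V3) 1, (u : V3) i ∂σ3 = 0 := by
  fin_cases i
  · simpa using moment3_zero_0 (a := 1) odd_one 0 0
  · simpa using moment3_zero_1 0 (b := 1) odd_one 0
  · simpa using moment3_zero_2 0 0 (c := 1) odd_one

theorem sph3_beta (i : Fin 3) : ∫ u : sphere (0 : V3) 1, beta u * (u : V3) i ∂σ3 = 0 := by
  have ha := P_cont ca
  have hb := P_cont cb
  have hi0 := coord3_cont 0
  have hi1 := coord3_cont 1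
  have hi2 := coord3_cont 2
  fin_cases i
  · have e : ∀ u : sphere (0 : V3) 1, beta u * (u : V3) 0 =
      (u : V3) 0 ^ 2 * P ca ((u : V3) 2 ^ 2) + (u : V3) 0 * (u : V3) 1 * P cb ((u : V3) 2 ^ 2) := by
      intro u; unfold beta; ring
    simp only [Fin.zero_eta, e]
    rw [integral_add (int3 (by fun_prop)) (int3 (by fun_prop)), sph_00 ca_rel, sph_01, add_zero]
  · have e : ∀ u : sphere (0 : V3) 1, beta u * (u : V3) 1 =
      (u : V3) 0 * (u : V3) 1 * P ca ((u : V3) 2 ^ 2) + (u : V3) 1 ^ 2 * P cb ((u : V3) 2 ^ 2) := by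
      intro u; unfold beta; ring
    simp only [Fin.mk_one, e]
    rw [integral_add (int3 (by fun_prop)) (int3 (by fun_prop)), sph_11 cb_rel, sph_01, add_zero]
  · have e : ∀ u : sphere (0 : V3) 1, beta u * (u : V3) 2 =
      (u : V3) 0 * (u : V3) 2 * P ca ((u : V3) 2 ^ 2) +
        (u : V3) 1 * (u : V3) 2 * P cb ((u : V3) 2 ^ 2) := by
      intro u; unfold beta; ring
    simp only [Fin.reduceFinMk, e]
    rw [integral_add (int3 (by fun_prop)) (int3 (by fun_prop)), sph_02, sph_12, add_zero]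

theorem body_int {ε : ℝ} (hc : IsCompact (KK beta ε))
    (h4 : ∀ u : V3, ‖u‖ = 1 → 1 / 2 ≤ 1 + 4 * ε * beta u)
    (h0 : ∀ u : V3, ‖u‖ = 1 → 0 ≤ rho beta ε u) (h2 : ∀ u : V3, ‖u‖ = 1 → rho beta ε u ≤ 2)
    (i : Fin 3) : ∫ x in KK beta ε, x i = 0 := by
  have := star_moment (volume : Measure V3) (ρ := rho beta ε) (K := KK beta ε) rfl
    hc.isClosed.measurableSet h0 (R := 2) (by norm_num) h2 (EuclideanSpace.proj i)
  simp only [PiLp.proj_apply, finrank_euclideanSpace, Fintype.card_fin] at this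
  rw [this]
  have hi := coord3_cont i
  have hbc : Continuous (fun u : sphere (0 : V3) 1 => beta u) :=
    beta_contDiff.continuous.comp continuous_subtype_val
  have e : ∀ u : sphere (0 : V3) 1, rho beta ε u ^ (3 + 1) / ((3 : ℕ) + 1 : ℝ) * (u : V3) i =
      1 / 4 * (u : V3) i + ε * (beta u * (u : V3) i) := by
    intro u
    have hu : ‖(u : V3)‖ = 1 := by simp
    have h5 : rho beta ε u ^ 4 = 1 + 4 * ε * beta u := rho_pow4 (by linarith [h4 u hu])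
    rw [show (3 + 1) = 4 from rfl, h5]
    push_cast
    ring
  simp only [e]
  rw [integral_add (int3 (by fun_prop)) (int3 (by fun_prop)), integral_const_mul,
    integral_const_mul, sph3_zero, sph3_beta]
  ring

end Pool.Agent.Lib.MP_be4961_gt
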